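import Pool.Agent.J4H7.WR.C2

set_option autoImplicit false

/-!
# Waring's problem with one generic parameter, part A (helper7)

The abstract mean value theorem over diminishing ranges.
-/

namespace Pool.Agent.J4H7.WS

open Real Set MeasureTheory Filter Topology
open Pool.Agent.J4H7.WE
open Pool.Agent.J4H7.WP
open Pool.Agent.J4H7.WR

/-- the hypothesis on pairs with different first digits -/
def Lev (q : ℝ) (k m : ℕ) (w w' c2 c3 c1 : ℝ) (Good : ℝ → Prop) (vf : (n : ℕ) → (Fin n → ℕ × ℕ) → ℝ) : Prop :=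
  ∀ (n : ℕ) (X : ℝ) (p : Fin (n + 1) → ℕ × ℕ), n + 1 ≤ m → 1 ≤ X → Good X → p ∈ PPs q X (n + 1) → (p 0).1 ≠ (p 0).2 →
    vf (n + 1) p ≤ c2 / (|((p 0).1 : ℝ) - (p 0).2| * X ^ w) ∧
    (vf (n + 1) p ≠ 0 → |((p 0).1 : ℝ) - (p 0).2| * X ^ ((k : ℝ) - 1) ≤ c3 * X ^ (q * k) ∧
      |AP k p| ≤ c1 * (|((p 0).1 : ℝ) - (p 0).2| * X ^ w'))

/-- **the contribution of different first digits** -/
lemma WW_abs {q X w w' c2 c3 c1 : ℝ} {k m n : ℕ} (hk : 2 ≤ k) (hq : 0 < q) (hq1 : q < 1) (hB : (1 - q) * k ≤ 1) (hX : 1 ≤ X)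
    (hc2 : 0 ≤ c2) (hc3 : 0 < c3) (hc1 : 0 < c1) {Good : ℝ → Prop} {vf : (n : ℕ) → (Fin n → ℕ × ℕ) → ℝ}
    (hnn : ∀ n p, 0 ≤ vf n p)
    (hlev : Lev q k m w w' c2 c3 c1 Good vf) (hnm : n + 1 ≤ m) (hc : Good X) :
    ∑ z ∈ SS q X 0 ×ˢ SS q X 0, (if z.1 = z.2 then 0 else
      ∑ p ∈ PPs q (X ^ q) n, vf (n + 1) (Fin.cons z p : Fin (n + 1) → ℕ × ℕ)) ≤
      (2 * (1 + 2 * c3) * c2 * Kc k m ^ n * (c1 + 1)) *
        (LL q X (n + 1) * (X ^ (-(k : ℝ)) * (X ^ (w' - w) + X ^ (k * q ^ (n + 1) - w)))) := by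
  have hk' : (2 : ℝ) ≤ k := by exact_mod_cast hk
  have hX0 : 0 < X := by linarith
  have hXq : 1 ≤ X ^ q := Real.one_le_rpow hX hq.le
  set P1 : ℝ := X ^ ((k : ℝ) - 1) with hP1
  set Pw : ℝ := X ^ w with hPw
  set Pw' : ℝ := X ^ w' with hPw'
  set Pk : ℝ := X ^ (q * (k : ℝ)) with hPk
  have hP10 : 0 < P1 := Real.rpow_pos_of_pos hX0 _
  have hPw0 : 0 < Pw := Real.rpow_pos_of_pos hX0 _
  have hPw'0 : 0 < Pw' := Real.rpow_pos_of_pos hX0 _
  have hPk0 : 0 < Pk := Real.rpow_pos_of_pos hX0 _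
  set Lk : ℝ := (lev q (X ^ q) n) ^ (k : ℝ) with hLk
  have hLk0 : 0 < Lk := Real.rpow_pos_of_pos (lev_pos hXq n) _
  set T : ℝ := c3 * Pk / P1 with hT
  have hT0 : 0 < T := by positivity
  set G : ℝ := c2 * (Kc k m ^ n * (LL q (X ^ q) n * ((X ^ q) ^ (-(k : ℝ)) * (c1 * Pw' / Pw + Lk / Pw)))) with hG
  have hKc := Kc_ge k m
  have hLL := LL_nonneg q (X ^ q) n
  have hXqk : 0 < (X ^ q) ^ (-(k : ℝ)) := Real.rpow_pos_of_pos (by linarith) _
  have hG0 : 0 ≤ G := by positivity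
  -- one pair
  have hz : ∀ z ∈ SS q X 0 ×ˢ SS q X 0, (if z.1 = z.2 then 0 else
      ∑ p ∈ PPs q (X ^ q) n, vf (n + 1) (Fin.cons z p : Fin (n + 1) → ℕ × ℕ)) ≤
      G * (if |(z.1 : ℝ) - z.2| ≤ T then (1 : ℝ) else 0) := by
    intro z hz
    by_cases hzz : z.1 = z.2
    · rw [if_pos hzz]
      split_ifs <;> simp [hG0]
    rw [if_neg hzz]
    have hd1 : (1 : ℝ) ≤ |(z.1 : ℝ) - z.2| := by
      have h1 : (1 : ℤ) ≤ |(z.1 : ℤ) - z.2| := Int.one_le_abs (sub_ne_zero.2 (by exact_mod_cast hzz))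
      have h2 : ((1 : ℤ) : ℝ) ≤ ((|(z.1 : ℤ) - z.2| : ℤ) : ℝ) := by exact_mod_cast h1
      push_cast at h2
      exact h2
    set d : ℝ := |(z.1 : ℝ) - z.2| with hd
    have hmem : ∀ p ∈ PPs q (X ^ q) n, (Fin.cons z p : Fin (n + 1) → ℕ × ℕ) ∈ PPs q X (n + 1) := by
      intro p hp
      rw [mem_PPs] at hp ⊢
      rw [Finset.mem_product] at hz
      intro i
      refine Fin.cases ?_ (fun i => ?_) i
      · simpa using hz
      · rw [Fin.cons_succ, Fin.val_succ, SS_succ' hX]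
        exact hp i
    have hv : ∀ p ∈ PPs q (X ^ q) n, _ := fun p hp => hlev n X (Fin.cons z p) hnm hX hc (hmem p hp) (by simpa using hzz)
    by_cases hdT : d ≤ T
    · rw [if_pos hdT, mul_one]
      set R : ℝ := c1 * (d * Pw') + Lk with hR
      have h1 : ∀ p ∈ PPs q (X ^ q) n, vf (n + 1) (Fin.cons z p : Fin (n + 1) → ℕ × ℕ) ≤
          (c2 / (d * Pw)) * (if |((z.1 : ℝ) ^ k - (z.2 : ℝ) ^ k) + AP k p| ≤ R then (1 : ℝ) else 0) := by
        intro p hp
        obtain ⟨v1, v2⟩ := hv p hp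
        simp only [Fin.cons_zero] at v1 v2
        by_cases h2 : |((z.1 : ℝ) ^ k - (z.2 : ℝ) ^ k) + AP k p| ≤ R
        · rw [if_pos h2, mul_one]
          exact v1
        · rw [if_neg h2, mul_zero]
          apply le_of_eq
          by_contra hne
          apply h2
          have h3 := (v2 hne).2
          rw [AP_cons] at h3
          refine h3.trans ?_
          rw [hR]
          linarith
      have hRl : (lev q (X ^ q) n) ^ (k : ℝ) ≤ R := by
        have h5 : 0 ≤ c1 * (d * Pw') := by positivity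
        rw [hR]
        linarith
      have h2 := NPs_le hk hq hq1 hB m n (by omega) (X ^ q) hXq ((z.1 : ℝ) ^ k - (z.2 : ℝ) ^ k) R hRl
      calc ∑ p ∈ PPs q (X ^ q) n, vf (n + 1) (Fin.cons z p : Fin (n + 1) → ℕ × ℕ)
          ≤ ∑ p ∈ PPs q (X ^ q) n, (c2 / (d * Pw)) *
              (if |((z.1 : ℝ) ^ k - (z.2 : ℝ) ^ k) + AP k p| ≤ R then (1 : ℝ) else 0) := Finset.sum_le_sum h1
        _ = (c2 / (d * Pw)) * NPs q (X ^ q) k n ((z.1 : ℝ) ^ k - (z.2 : ℝ) ^ k) R := by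
            rw [← Finset.mul_sum]
            rfl
        _ ≤ (c2 / (d * Pw)) * (Kc k m ^ n * (LL q (X ^ q) n * ((X ^ q) ^ (-(k : ℝ)) * R))) :=
            mul_le_mul_of_nonneg_left h2 (by positivity)
        _ = c2 * (Kc k m ^ n * (LL q (X ^ q) n * ((X ^ q) ^ (-(k : ℝ)) * (R / (d * Pw))))) := by ring
        _ ≤ G := by
            rw [hG]
            have h3 : R / (d * Pw) ≤ c1 * Pw' / Pw + Lk / Pw := by
              rw [hR, add_div]
              apply add_le_add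
              · apply le_of_eq
                field_simp
              · apply div_le_div_of_nonneg_left hLk0.le hPw0
                nlinarith
            gcongr
    · rw [if_neg hdT, mul_zero]
      apply le_of_eq
      apply Finset.sum_eq_zero
      intro p hp
      by_contra hne
      apply hdT
      have h3 := ((hv p hp).2 hne).1
      simp only [Fin.cons_zero] at h3
      rw [hT, le_div_iff₀ hP10]
      exact h3
  refine (Finset.sum_le_sum hz).trans ?_
  rw [← Finset.mul_sum]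
  have hcp := close_pairs hq hX hT0.le
  refine (mul_le_mul_of_nonneg_left hcp hG0).trans ?_
  have hkP : 1 ≤ Pk / P1 := by
    rw [le_div_iff₀ hP10, one_mul, hPk, hP1]
    apply Real.rpow_le_rpow_of_exponent_le hX
    linarith
  have h1 : 1 + 2 * T ≤ (1 + 2 * c3) * (Pk / P1) := by
    rw [hT]
    have : 2 * (c3 * Pk / P1) = 2 * c3 * (Pk / P1) := by ring
    rw [this]
    linarith
  have e1 : (X ^ q) ^ (-(k : ℝ)) * Pk = 1 := by
    rw [hPk, ← Real.rpow_mul hX0.le, ← Real.rpow_add hX0]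
    simp
  have e2 : X * (1 / P1) = X ^ 2 * X ^ (-(k : ℝ)) := by
    rw [hP1, one_div, ← Real.rpow_neg hX0.le, ← Real.rpow_natCast X 2, ← Real.rpow_add hX0]
    nth_rewrite 1 [← Real.rpow_one X]
    rw [← Real.rpow_add hX0]
    congr 1
    push_cast
    ring
  have e3 : c1 * Pw' / Pw = c1 * X ^ (w' - w) := by
    rw [Real.rpow_sub hX0, mul_div_assoc]
  have e4 : Lk / Pw = X ^ (k * q ^ (n + 1) - w) := by
    have h2 : Lk = X ^ (k * q ^ (n + 1)) := by
      rw [hLk, ← lev_succ' hX]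
      unfold lev
      rw [← Real.rpow_mul hX0.le]
      congr 1
      ring
    rw [h2, ← Real.rpow_sub hX0]
  have hA0 : 0 < X ^ (w' - w) := Real.rpow_pos_of_pos hX0 _
  have hB0 : 0 < X ^ (k * q ^ (n + 1) - w) := Real.rpow_pos_of_pos hX0 _
  calc G * (2 * X * (1 + 2 * T)) ≤ G * (2 * X * ((1 + 2 * c3) * (Pk / P1))) := by gcongr
    _ = (2 * (1 + 2 * c3) * c2 * Kc k m ^ n) * (LL q (X ^ q) n * (((X ^ q) ^ (-(k : ℝ)) * Pk) * (X * (1 / P1)) *
          (c1 * Pw' / Pw + Lk / Pw))) := by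
        rw [hG]
        ring
    _ = (2 * (1 + 2 * c3) * c2 * Kc k m ^ n) * (LL q X (n + 1) * (X ^ (-(k : ℝ)) *
          (c1 * X ^ (w' - w) + X ^ (k * q ^ (n + 1) - w)))) := by
        rw [e1, e2, e3, e4, LL_succ hX]
        ring
    _ ≤ (2 * (1 + 2 * c3) * c2 * Kc k m ^ n) * (LL q X (n + 1) * (X ^ (-(k : ℝ)) *
          ((c1 + 1) * (X ^ (w' - w) + X ^ (k * q ^ (n + 1) - w))))) := by
        have hl := LL_nonneg q X (n + 1)
        have hxk : 0 < X ^ (-(k : ℝ)) := Real.rpow_pos_of_pos hX0 _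
        apply mul_le_mul_of_nonneg_left _ (by positivity)
        apply mul_le_mul_of_nonneg_left _ hl
        apply mul_le_mul_of_nonneg_left _ hxk.le
        nlinarith
    _ = _ := by ring

/-- **the mean value** -/
theorem UU_abs {q w w' c2 c3 c1 C0 : ℝ} {k m : ℕ} (hk : 2 ≤ k) (hq : 0 < q) (hq1 : q < 1) (hB : (1 - q) * k ≤ 1)
    (hD : 1 ≤ (1 - q) * (k + w)) (hww : w ≤ w')
    (hc2 : 0 ≤ c2) (hc3 : 0 < c3) (hc1 : 0 < c1) {Good : ℝ → Prop} {vf : (n : ℕ) → (Fin n → ℕ × ℕ) → ℝ}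
    (hnn : ∀ n p, 0 ≤ vf n p) (hbd : ∀ n p, vf n p ≤ C0)
    (hcons : ∀ (n : ℕ) (z : ℕ × ℕ) (p : Fin n → ℕ × ℕ), z.1 = z.2 → vf (n + 1) (Fin.cons z p : Fin (n + 1) → ℕ × ℕ) = vf n p)
    (hlev : Lev q k m w w' c2 c3 c1 Good vf) :
    ∀ n : ℕ, n ≤ m → ∃ C : ℝ, 0 ≤ C ∧ ∀ X : ℝ, 1 ≤ X → (∀ i < n, Good (lev q X i)) →
      ∑ p ∈ PPs q X n, vf n p ≤ C * (X ^ (w' - w) * (LL q X n * X ^ (-(min (k : ℝ) (∑ i ∈ Finset.range n, q ^ i))))) := by
  have hk' : (2 : ℝ) ≤ k := by exact_mod_cast hk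
  intro n
  induction n with
  | zero =>
    intro _
    have hC0 : 0 ≤ C0 := (hnn 0 (fun i => i.elim0)).trans (hbd 0 _)
    refine ⟨C0, hC0, fun X hX _ => ?_⟩
    have h1 : ∑ p ∈ PPs q X 0, vf 0 p ≤ C0 := by
      unfold PPs
      rw [Fintype.piFinset_of_isEmpty, Finset.univ_unique, Finset.sum_singleton]
      exact hbd 0 _
    have h2 : 1 ≤ X ^ (w' - w) := Real.one_le_rpow hX (by linarith)
    have h3 : min (k : ℝ) (∑ i ∈ Finset.range 0, q ^ i) = 0 := by
      rw [Finset.sum_range_zero]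
      exact min_eq_right (by linarith)
    have h4 : LL q X 0 = 1 := by unfold LL; simp
    rw [h3, h4, neg_zero, Real.rpow_zero, mul_one, mul_one]
    nlinarith
  | succ n ih =>
    intro hn
    obtain ⟨C, hC, H⟩ := ih (by omega)
    set C' : ℝ := 2 * (1 + 2 * c3) * c2 * Kc k m ^ n * (c1 + 1) with hC'
    have hKc := Kc_ge k m
    have hC'0 : 0 ≤ C' := by positivity
    refine ⟨2 * C + 2 * C', by positivity, fun X hX hcq => ?_⟩
    have hX0 : 0 < X := by linarith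
    have hXq : 1 ≤ X ^ q := Real.one_le_rpow hX hq.le
    have hl0 : lev q X 0 = X := by unfold lev; simp
    have hcq0 : Good X := by
      have := hcq 0 (by omega)
      rwa [hl0] at this
    have hIH := H (X ^ q) hXq (fun i hi => by
      have := hcq (i + 1) (by omega)
      rwa [lev_succ' hX] at this)
    have hWW := WW_abs (n := n) hk hq hq1 hB hX hc2 hc3 hc1 hnn hlev hn hcq0
    set e' : ℝ := min (k : ℝ) (∑ i ∈ Finset.range (n + 1), q ^ i) with he'
    set e : ℝ := min (k : ℝ) (∑ i ∈ Finset.range n, q ^ i) with he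
    have hsum : ∑ i ∈ Finset.range (n + 1), q ^ i = 1 + q * ∑ i ∈ Finset.range n, q ^ i := by
      rw [Finset.sum_range_succ', Finset.mul_sum, pow_zero, add_comm]
      congr 1
      exact Finset.sum_congr rfl fun i _ => by rw [pow_succ]; ring
    have hee : e' ≤ 1 + q * e := by
      rw [he', he]
      rcases min_choice (k : ℝ) (∑ i ∈ Finset.range n, q ^ i) with h | h
      · rw [h]
        refine (min_le_left _ _).trans ?_
        linarith
      · rw [h]
        refine (min_le_right _ _).trans ?_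
        rw [hsum]
    have hgeom : (1 - q) * ∑ i ∈ Finset.range (n + 1), q ^ i = 1 - q ^ (n + 1) := mul_neg_geom_sum q (n + 1)
    have hqn : 0 < q ^ (n + 1) := by positivity
    have hew : e' ≤ (k : ℝ) + w - k * q ^ (n + 1) := by
      refine (min_le_right _ _).trans ?_
      have h1q : 0 < 1 - q := by linarith
      rw [← mul_le_mul_iff_of_pos_left h1q, hgeom]
      nlinarith [mul_nonneg hqn.le (sub_nonneg.2 hB)]
    -- splitting
    set U' : ℝ := ∑ p ∈ PPs q (X ^ q) n, vf n p with hU'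
    have hU : ∑ p ∈ PPs q X (n + 1), vf (n + 1) p = ∑ z ∈ SS q X 0 ×ˢ SS q X 0, (if z.1 = z.2 then U' else 0) +
        ∑ z ∈ SS q X 0 ×ˢ SS q X 0, (if z.1 = z.2 then 0 else
          ∑ p ∈ PPs q (X ^ q) n, vf (n + 1) (Fin.cons z p : Fin (n + 1) → ℕ × ℕ)) := by
      rw [sum_PPs_succ hX, ← Finset.sum_add_distrib]
      refine Finset.sum_congr rfl fun z _ => ?_
      by_cases h : z.1 = z.2
      · rw [if_pos h, if_pos h, add_zero]
        exact Finset.sum_congr rfl fun p _ => hcons n z p h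
      · rw [if_neg h, if_neg h, zero_add]
    have hdiag : ∑ z ∈ SS q X 0 ×ˢ SS q X 0, (if z.1 = z.2 then U' else 0) ≤ 2 * X * U' := by
      have h1 : ∑ z ∈ SS q X 0 ×ˢ SS q X 0, (if z.1 = z.2 then U' else 0) = (SS q X 0).card * U' := by
        rw [Finset.sum_product]
        simp
      rw [h1]
      have h2 := SS_card hq.le hX 0
      rw [hl0] at h2
      apply mul_le_mul_of_nonneg_right h2
      exact Finset.sum_nonneg fun p _ => hnn _ _
    rw [hU]
    have hLL := LL_nonneg q (X ^ q) n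
    have hLL' := LL_nonneg q X (n + 1)
    -- first part
    have p1 : 2 * X * U' ≤ 2 * C * (X ^ (w' - w) * (LL q X (n + 1) * X ^ (-e'))) := by
      have h1 : X * ((X ^ q) ^ (w' - w) * (X ^ q) ^ (-e)) ≤ X ^ 2 * (X ^ (w' - w) * X ^ (-e')) := by
        have e1 : X * ((X ^ q) ^ (w' - w) * (X ^ q) ^ (-e)) = X ^ (1 + (q * (w' - w) + q * (-e))) := by
          rw [← Real.rpow_mul hX0.le, ← Real.rpow_mul hX0.le, ← Real.rpow_add hX0, Real.rpow_add hX0 1, Real.rpow_one]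
        have e2 : X ^ 2 * (X ^ (w' - w) * X ^ (-e')) = X ^ (2 + (w' - w + -e')) := by
          rw [Real.rpow_add hX0 2, Real.rpow_add hX0 (w' - w), Real.rpow_ofNat]
        rw [e1, e2]
        apply Real.rpow_le_rpow_of_exponent_le hX
        nlinarith [mul_nonneg (sub_nonneg.2 hq1.le) (sub_nonneg.2 hww)]
      calc 2 * X * U' ≤ 2 * X * (C * ((X ^ q) ^ (w' - w) * (LL q (X ^ q) n * (X ^ q) ^ (-e)))) :=
            mul_le_mul_of_nonneg_left hIH (by positivity)
        _ = 2 * C * (LL q (X ^ q) n * (X * ((X ^ q) ^ (w' - w) * (X ^ q) ^ (-e)))) := by ring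
        _ ≤ 2 * C * (LL q (X ^ q) n * (X ^ 2 * (X ^ (w' - w) * X ^ (-e')))) := by
            apply mul_le_mul_of_nonneg_left _ (by positivity)
            exact mul_le_mul_of_nonneg_left h1 hLL
        _ = _ := by
            rw [LL_succ hX]
            ring
    -- second part
    have p2 : C' * (LL q X (n + 1) * (X ^ (-(k : ℝ)) * (X ^ (w' - w) + X ^ (k * q ^ (n + 1) - w)))) ≤
        2 * C' * (X ^ (w' - w) * (LL q X (n + 1) * X ^ (-e'))) := by
      have h1 : X ^ (-(k : ℝ)) * X ^ (w' - w) ≤ X ^ (w' - w) * X ^ (-e') := by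
        rw [← Real.rpow_add hX0, ← Real.rpow_add hX0]
        apply Real.rpow_le_rpow_of_exponent_le hX
        have := min_le_left (k : ℝ) (∑ i ∈ Finset.range (n + 1), q ^ i)
        rw [← he'] at this
        nlinarith [mul_nonneg (sub_nonneg.2 hq1.le) (sub_nonneg.2 hww)]
      have h2 : X ^ (-(k : ℝ)) * X ^ (k * q ^ (n + 1) - w) ≤ X ^ (w' - w) * X ^ (-e') := by
        rw [← Real.rpow_add hX0, ← Real.rpow_add hX0]
        apply Real.rpow_le_rpow_of_exponent_le hX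
        linarith
      calc C' * (LL q X (n + 1) * (X ^ (-(k : ℝ)) * (X ^ (w' - w) + X ^ (k * q ^ (n + 1) - w))))
          = C' * (LL q X (n + 1) * (X ^ (-(k : ℝ)) * X ^ (w' - w) +
              X ^ (-(k : ℝ)) * X ^ (k * q ^ (n + 1) - w))) := by ring
        _ ≤ C' * (LL q X (n + 1) * (X ^ (w' - w) * X ^ (-e') + X ^ (w' - w) * X ^ (-e'))) := by
            apply mul_le_mul_of_nonneg_left _ hC'0
            apply mul_le_mul_of_nonneg_left _ hLL'
            linarith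
        _ = _ := by ring
    calc _ ≤ 2 * X * U' +
          C' * (LL q X (n + 1) * (X ^ (-(k : ℝ)) * (X ^ (w' - w) + X ^ (k * q ^ (n + 1) - w)))) :=
          add_le_add hdiag hWW
      _ ≤ 2 * C * (X ^ (w' - w) * (LL q X (n + 1) * X ^ (-e'))) + 2 * C' * (X ^ (w' - w) * (LL q X (n + 1) * X ^ (-e'))) :=
          add_le_add p1 p2
      _ = _ := by ring

end Pool.Agent.J4H7.WS
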