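import Pool.Agent.J4H7.WS.E
import Pool.Agent.J4H7.WL.G

set_option autoImplicit false

/-!
# Waring's problem with one generic parameter, part R (helper7)

The representation theorem for an abstract function of order `z ^ k`.
-/

namespace Pool.Agent.J4H7.WS

open Real Set Filter Topology
open Pool.Agent.J4H7.WE
open Pool.Agent.J4H7.WP
open Pool.Agent.J4H7.WR
open Pool.Agent.Helper153.Vdc (ee ee_norm)

/-- a function of order `z ^ k` -/
structure Fn (k : ℕ) (f : ℝ → ℝ) : Prop where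
  nn : ∀ z : ℝ, 0 ≤ z → 0 ≤ f z
  mono : ∀ a b : ℝ, 0 < a → a ≤ b → f a ≤ f b
  cont : ∀ z : ℝ, 0 < z → ContinuousAt f z
  lo : ∀ z : ℝ, 0 < z → z ^ k ≤ f z
  hi : ∀ᶠ z : ℝ in atTop, f z ≤ 2 * z ^ k
  all : ∃ C : ℝ, 1 ≤ C ∧ ∀ z : ℝ, 1 ≤ z → f z ≤ C * z ^ k
  lip : ∃ A : ℝ, 1 ≤ A ∧ ∀ u v : ℝ, 1 ≤ u → u ≤ v → f v - f u ≤ A * v ^ ((k : ℝ) - 1) * (v - u)

/-- the weighted sum -/
noncomputable def GR (f : ℝ → ℝ) (Y M : ℕ) (α : ℝ) : ℂ :=
  ∑ n ∈ Finset.range M, ((ww (f ((Y : ℝ) + n)) : ℝ) : ℂ) * ee (α * (⌊f ((Y : ℝ) + n)⌋₊ : ℝ))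

lemma GR_hasSum {f : ℝ → ℝ} (hf : ∀ z : ℝ, 0 ≤ z → 0 ≤ f z) (Y M : ℕ) {α : ℝ} (hα : |α| ≤ 1 / 2) :
    HasSum (fun h : ℤ => cf α h * SG f Y M (h + α)) (GR f Y M α) := by
  have h1 : ∀ n ∈ Finset.range M, HasSum (fun h : ℤ => cf α h * ee ((h + α) * f ((Y : ℝ) + n)))
      (((ww (f ((Y : ℝ) + n)) : ℝ) : ℂ) * ee (α * (⌊f ((Y : ℝ) + n)⌋₊ : ℝ))) := by
    intro n _
    set t : ℝ := f ((Y : ℝ) + n) with ht
    have ht0 : 0 ≤ t := hf _ (by positivity)
    have h2 := (fourier_ww hα t).mul_right (ee (α * t))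
    have e1 : (ww t : ℂ) * ee (-(α * Int.fract t)) * ee (α * t) = (ww t : ℂ) * ee (α * (⌊t⌋₊ : ℝ)) := by
      rw [mul_assoc, ← ee_add]
      congr 2
      have : (⌊t⌋₊ : ℝ) = (⌊t⌋ : ℝ) := natCast_floor_eq_intCast_floor ht0
      rw [this, Int.fract]
      ring
    rw [e1] at h2
    refine h2.congr_fun ?_
    intro h
    rw [mul_assoc (cf α h), ← ee_add]
    congr 2
    ring
  have h3 := hasSum_sum h1
  have e2 : (fun h : ℤ => ∑ n ∈ Finset.range M, cf α h * ee ((h + α) * f ((Y : ℝ) + n))) =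
      fun h : ℤ => cf α h * SG f Y M (h + α) := by
    funext h
    unfold SG
    rw [Finset.mul_sum]
  rw [e2] at h3
  exact h3

lemma GR_triv (f : ℝ → ℝ) (Y M : ℕ) (α : ℝ) : ‖GR f Y M α‖ ≤ M := by
  unfold GR
  refine (norm_sum_le _ _).trans ?_
  calc ∑ n ∈ Finset.range M, ‖((ww (f ((Y : ℝ) + n)) : ℝ) : ℂ) * ee (α * (⌊f ((Y : ℝ) + n)⌋₊ : ℝ))‖
      ≤ ∑ _n ∈ Finset.range M, (1 : ℝ) := by
        refine Finset.sum_le_sum fun n _ => ?_
        rw [norm_mul, ee_norm', mul_one, Complex.norm_real, Real.norm_of_nonneg (ww_nonneg _)]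
        exact ww_le _
    _ = M := by simp

theorem GR_bound {k : ℕ} (hk : 2 ≤ k) {f : ℝ → ℝ} (hf : ∀ z : ℝ, 0 ≤ z → 0 ≤ f z) (hES : ESall k f)
    {η : ℝ} (hη : 0 < η) (hη1 : η ≤ 1 / 8) :
    ∃ σ : ℝ, 0 < σ ∧ σ ≤ 1 ∧ ∃ C : ℝ, 1 ≤ C ∧ ∃ X0 : ℝ, 4 ≤ X0 ∧ ∀ X : ℝ, X0 ≤ X →
      ∀ α : ℝ, |α| ≤ 1 / 2 → X ^ (2 * η) ≤ |α| * X ^ (k : ℝ) → ∀ Y M : ℕ, 4 * X ≤ Y →
      (Y : ℝ) + M ≤ 64 * X + 1 → ‖GR f Y M α‖ ≤ C * X ^ (1 - σ) := by
  have hk' : (2 : ℝ) ≤ k := by exact_mod_cast hk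
  obtain ⟨κ, hκ, hκ1, σ, hσ, hσ1, C, hC, X0, hX0, H⟩ := hES η hη hη1
  have hS := sum_dec
  set S : ℝ := ∑' n : ℤ, 8 / (1 + |(n : ℝ)|) ^ 2 with hSd
  have hS0 : 0 ≤ S := tsum_nonneg fun n => by positivity
  obtain ⟨X1, hX1⟩ := eventually_atTop.1 ((tendsto_rpow_atTop hκ).eventually_ge_atTop (2 : ℝ))
  refine ⟨min σ κ, lt_min hσ hκ, (min_le_left _ _).trans hσ1, 1 + S * (C + 130), ?_, max (max X0 X1) 4, le_max_right _ _, ?_⟩
  · have : 0 ≤ S * (C + 130) := mul_nonneg hS0 (by linarith)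
    linarith
  intro X hX α hα hα2 Y M hY hM
  have hX4 : 4 ≤ X := (le_max_right _ _).trans hX
  have hXX1 : X1 ≤ X := (le_max_right _ _).trans ((le_max_left _ _).trans hX)
  have hXX0 : X0 ≤ X := (le_max_left _ _).trans ((le_max_left _ _).trans hX)
  have hXp : 0 < X := by linarith
  set P : ℝ := X ^ (1 - min σ κ) with hP
  have hP1 : 1 ≤ P := Real.one_le_rpow (by linarith) (by linarith [min_le_left σ κ])
  have hPσ : X ^ (1 - σ) ≤ P := Real.rpow_le_rpow_of_exponent_le (by linarith) (by linarith [min_le_left σ κ])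
  have hPκ : X ^ (1 - κ) ≤ P := Real.rpow_le_rpow_of_exponent_le (by linarith) (by linarith [min_le_right σ κ])
  have hM65 : (M : ℝ) ≤ 65 * X := by
    have : (0 : ℝ) ≤ Y := by positivity
    linarith
  have hXκ : 2 ≤ X ^ κ := hX1 X hXX1
  -- each term
  have hterm : ∀ h : ℤ, ‖cf α h * SG f Y M (h + α)‖ ≤ 8 / (1 + |(h : ℝ)|) ^ 2 * ((C + 130) * P) := by
    intro h
    have hh0 := abs_nonneg (h : ℝ)
    have hSE : ‖SG f Y M (h + α)‖ ≤ (1 + |(h : ℝ)|) * ((C + 130) * P) := by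
      rcases le_or_gt |(h : ℝ) + α| (X ^ κ) with hle | hgt
      · have g1 : ‖SG f Y M (h + α)‖ ≤ C * X ^ (1 - σ) := by
          refine H X hXX0 (h + α) ?_ hle Y M hY hM
          by_cases hh : h = 0
          · subst hh
            simpa using hα2
          · have h1 : (1 : ℝ) ≤ |(h : ℝ)| := by
              have : (1 : ℤ) ≤ |h| := Int.one_le_abs hh
              exact_mod_cast this
            have h2 : 1 / 2 ≤ |(h : ℝ) + α| := by
              have := abs_sub_abs_le_abs_sub (h : ℝ) (-α)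
              rw [abs_neg, sub_neg_eq_add] at this
              linarith
            have h3 : X ^ (2 * η) ≤ X ^ (1 / 2 : ℝ) := Real.rpow_le_rpow_of_exponent_le (by linarith) (by linarith)
            have h4 : X ^ (1 / 2 : ℝ) * X ^ (1 / 2 : ℝ) ≤ X ^ (k : ℝ) := by
              rw [← Real.rpow_add hXp]
              exact Real.rpow_le_rpow_of_exponent_le (by linarith) (by linarith)
            have h5 : (2 : ℝ) ≤ X ^ (1 / 2 : ℝ) := by
              have : (2 : ℝ) = (4 : ℝ) ^ (1 / 2 : ℝ) := by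
                rw [show (4 : ℝ) = 2 ^ (2 : ℝ) by norm_num, ← Real.rpow_mul (by norm_num)]
                norm_num
              exact this.le.trans (Real.rpow_le_rpow (by norm_num) hX4 (by norm_num))
            have h6 : 0 < X ^ (1 / 2 : ℝ) := by linarith
            calc X ^ (2 * η) ≤ X ^ (1 / 2 : ℝ) := h3
              _ ≤ 1 / 2 * (X ^ (1 / 2 : ℝ) * X ^ (1 / 2 : ℝ)) := by nlinarith
              _ ≤ 1 / 2 * X ^ (k : ℝ) := by linarith
              _ ≤ |(h : ℝ) + α| * X ^ (k : ℝ) := mul_le_mul_of_nonneg_right h2 (Real.rpow_nonneg hXp.le _)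
        calc ‖SG f Y M (h + α)‖ ≤ C * X ^ (1 - σ) := g1
          _ ≤ C * P := mul_le_mul_of_nonneg_left hPσ (by linarith)
          _ ≤ 1 * ((C + 130) * P) := by nlinarith
          _ ≤ _ := by
            apply mul_le_mul_of_nonneg_right _ (by nlinarith)
            linarith
      · have h1 : X ^ κ / 2 ≤ |(h : ℝ)| := by
          have := abs_add_le (h : ℝ) α
          linarith
        have hXe : X = X ^ κ * X ^ (1 - κ) := by
          rw [← Real.rpow_add hXp]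
          rw [show κ + (1 - κ) = 1 by ring, Real.rpow_one]
        have hXκ0 : 0 < X ^ (1 - κ) := Real.rpow_pos_of_pos hXp _
        calc ‖SG f Y M (h + α)‖ ≤ M := SG_triv _ _ _ _
          _ ≤ 65 * X := hM65
          _ = 65 * (X ^ κ * X ^ (1 - κ)) := by rw [← hXe]
          _ ≤ 65 * ((2 * |(h : ℝ)|) * P) := by
            apply mul_le_mul_of_nonneg_left _ (by norm_num)
            apply mul_le_mul (by linarith) hPκ hXκ0.le (by positivity)
          _ ≤ _ := by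
            have a1 : 0 ≤ C * (|(h : ℝ)| * P) := mul_nonneg (by linarith) (mul_nonneg hh0 (by linarith))
            have a2 : 0 ≤ (C + 130) * P := mul_nonneg (by linarith) (by linarith)
            have a3 : (1 + |(h : ℝ)|) * ((C + 130) * P) = (C + 130) * P + C * (|(h : ℝ)| * P) + 65 * (2 * |(h : ℝ)| * P) := by ring
            rw [a3]
            linarith
    rw [norm_mul]
    calc ‖cf α h‖ * ‖SG f Y M (h + α)‖ ≤ 8 / (1 + |(h : ℝ)|) ^ 3 * ((1 + |(h : ℝ)|) * ((C + 130) * P)) :=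
          mul_le_mul (cf_bound hα h) hSE (norm_nonneg _) (by positivity)
      _ = _ := by
        field_simp
  have hG := GR_hasSum hf Y M hα
  have hsum : Summable fun h : ℤ => 8 / (1 + |(h : ℝ)|) ^ 2 * ((C + 130) * P) := hS.mul_right _
  calc ‖GR f Y M α‖ = ‖∑' h : ℤ, cf α h * SG f Y M (h + α)‖ := by rw [hG.tsum_eq]
    _ ≤ ∑' h : ℤ, 8 / (1 + |(h : ℝ)|) ^ 2 * ((C + 130) * P) := tsum_of_norm_bounded hsum.hasSum hterm
    _ = S * ((C + 130) * P) := by rw [tsum_mul_right]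
    _ ≤ (1 + S * (C + 130)) * P := by nlinarith

/-- the sum of the weights in an interval -/
theorem WR_bound {k : ℕ} (hk : 2 ≤ k) {f : ℝ → ℝ} (hES : ESall k f) :
    ∃ σ : ℝ, 0 < σ ∧ σ ≤ 1 ∧ ∃ C : ℝ, 1 ≤ C ∧ ∃ X0 : ℝ, 4 ≤ X0 ∧ ∀ X : ℝ, X0 ≤ X →
      ∀ Y M : ℕ, 4 * X ≤ Y → (Y : ℝ) + M ≤ 64 * X + 1 →
      (M : ℝ) / 2 - C * X ^ (1 - σ) ≤ ∑ n ∈ Finset.range M, ww (f ((Y : ℝ) + n)) := by
  have hk' : (2 : ℝ) ≤ k := by exact_mod_cast hk
  obtain ⟨κ, hκ, hκ1, σ, hσ, hσ1, C, hC, X0, hX0, H⟩ := hES (1 / 8) (by norm_num) le_rfl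
  refine ⟨σ, hσ, hσ1, C, hC, max X0 4, le_max_right _ _, ?_⟩
  intro X hX Y M hY hM
  have hX4 : 4 ≤ X := (le_max_right _ _).trans hX
  have hXp : 0 < X := by linarith
  have hS : ∀ s : ℝ, |s| = 1 → ‖SG f Y M s‖ ≤ C * X ^ (1 - σ) := by
    intro s hs
    refine H X ((le_max_left _ _).trans hX) s ?_ ?_ Y M hY hM
    · rw [hs, one_mul]
      exact Real.rpow_le_rpow_of_exponent_le (by linarith) (by linarith)
    · rw [hs]
      exact Real.one_le_rpow (by linarith) hκ.le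
  have e1 : ((∑ n ∈ Finset.range M, ww (f ((Y : ℝ) + n)) : ℝ) : ℂ) =
      (2 * M - SG f Y M 1 - SG f Y M (-1)) / 4 := by
    rw [Complex.ofReal_sum]
    simp_rw [ww_ee]
    rw [← Finset.sum_div, Finset.sum_sub_distrib, Finset.sum_sub_distrib]
    unfold SG
    simp only [one_mul, neg_mul, Finset.sum_const, Finset.card_range, nsmul_eq_mul]
    congr 3
    ring
  have e2 : (∑ n ∈ Finset.range M, ww (f ((Y : ℝ) + n))) =
      (2 * (M : ℝ) - (SG f Y M 1).re - (SG f Y M (-1)).re) / 4 := by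
    have := congrArg Complex.re e1
    rw [Complex.ofReal_re] at this
    rw [this]
    have h4 : ((2 * (M : ℂ) - SG f Y M 1 - SG f Y M (-1)) / 4) =
        (((1 / 4 : ℝ)) : ℂ) * (2 * (M : ℂ) - SG f Y M 1 - SG f Y M (-1)) := by
      push_cast
      ring
    rw [h4, Complex.re_ofReal_mul]
    simp
    ring
  rw [e2]
  have h1 := (Complex.re_le_norm (SG f Y M 1)).trans (hS 1 (by norm_num))
  have h2 := (Complex.re_le_norm (SG f Y M (-1))).trans (hS (-1) (by norm_num))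
  have h3 : 0 ≤ C * X ^ (1 - σ) := by
    have := Real.rpow_nonneg hXp.le (1 - σ)
    positivity
  linarith

/-- `⌊f z⌋` -/
noncomputable def fr (f : ℝ → ℝ) (z : ℕ) : ℕ := ⌊f z⌋₊

open scoped Classical in
/-- **the main term** -/
theorem count_R {k : ℕ} (hk : 2 ≤ k) {f : ℝ → ℝ} (hf : Fn k f) (hES : ESall k f) :
    ∃ ρ : ℝ, 0 < ρ ∧ ρ ≤ 1 / 4 ∧ ∃ c : ℝ, 0 < c ∧ ∃ X0 : ℝ, 4 ≤ X0 ∧ ∀ X : ℝ, X0 ≤ X →
      ∀ W T : ℕ, X ^ ((k : ℝ) - ρ) ≤ W → 2 * (4 * X) ^ k ≤ (T : ℝ) - W + 1 → (T : ℝ) ≤ (32 * X) ^ k →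
      c * X ^ (1 - ρ) ≤ ∑ z ∈ BB X, if (T < fr f z + W ∧ fr f z ≤ T) then ww (f z) else 0 := by
  have hk' : (2 : ℝ) ≤ k := by exact_mod_cast hk
  obtain ⟨σ, hσ, hσ1, C, hC, X1, hX1, HW⟩ := WR_bound hk hES
  obtain ⟨A, hA, hlip⟩ := hf.lip
  obtain ⟨Z, hZ⟩ := eventually_atTop.1 hf.hi
  set ρ : ℝ := σ / 4 with hρ
  have hρ0 : 0 < ρ := by positivity
  set θ : ℝ := (k : ℝ) with hθd
  set c0 : ℝ := 1 / (2 * A * 32 ^ (θ - 1)) with hc0
  have hc00 : 0 < c0 := by positivity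
  have ev1 : ∀ᶠ X : ℝ in atTop, (2 : ℝ) ≤ X ^ (θ - ρ) := (tendsto_rpow_atTop (by linarith)).eventually_ge_atTop _
  have ev2 : ∀ᶠ X : ℝ in atTop, 4 / c0 ≤ X ^ (1 - ρ) := (tendsto_rpow_atTop (by linarith)).eventually_ge_atTop _
  have ev3 : ∀ᶠ X : ℝ in atTop, 8 * C / c0 ≤ X ^ (σ - ρ) := (tendsto_rpow_atTop (by linarith)).eventually_ge_atTop _
  obtain ⟨X2, hX2⟩ := eventually_atTop.1 (ev1.and (ev2.and (ev3.and (eventually_ge_atTop Z))))
  refine ⟨ρ, hρ0, by linarith, c0 / 4, by positivity, max X1 X2, hX1.trans (le_max_left _ _), ?_⟩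
  intro X hX W T hW hT1 hT2
  obtain ⟨g1, g2, g3, g4⟩ := hX2 X ((le_max_right _ _).trans hX)
  have hX4 : 4 ≤ X := hX1.trans ((le_max_left _ _).trans hX)
  have hX0 : 0 < X := by linarith
  have hθ0 : 0 < θ := by linarith
  set t : ℝ := (T : ℝ) - W + 1 with ht
  have h4X : 0 < (4 * X) ^ k := by positivity
  have ht0 : 0 < t := by linarith
  have hW2 : (2 : ℝ) ≤ W := g1.trans hW
  have hT0 : (0 : ℝ) < T := by linarith
  have htT : t < T := by linarith
  have hmono := hf.mono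
  -- the function
  have hfc : ContinuousOn f (Icc (4 * X) (32 * X)) := by
    intro z hz
    exact (hf.cont z (by linarith [hz.1])).continuousWithinAt
  have hfl : f (4 * X) ≤ t := (hZ (4 * X) (by linarith)).trans hT1
  have hfu : (T : ℝ) ≤ f (32 * X) := hT2.trans (hf.lo _ (by linarith))
  have hivt := intermediate_value_Icc (show 4 * X ≤ 32 * X by linarith) hfc
  obtain ⟨u, hu, hut⟩ := hivt (show t ∈ Icc (f (4 * X)) (f (32 * X)) from ⟨hfl, htT.le.trans hfu⟩)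
  obtain ⟨v, hv, hvT⟩ := hivt (show (T : ℝ) ∈ Icc (f (4 * X)) (f (32 * X)) from ⟨hfl.trans htT.le, hfu⟩)
  have hu4 : 4 * X ≤ u := hu.1
  have hv32 : v ≤ 32 * X := hv.2
  have hu0 : 0 < u := by linarith
  have hv0 : 0 < v := by linarith [hv.1]
  have huv : u ≤ v := by
    by_contra hne
    push Not at hne
    have := hmono v u hv0 hne.le
    rw [hut, hvT] at this
    linarith
  -- the length
  have hlen : c0 * X ^ (1 - ρ) ≤ v - u := by
    have h1 := hlip u v (by linarith) huv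
    rw [hut, hvT] at h1
    have h2 : v ^ (θ - 1) ≤ (32 * X) ^ (θ - 1) := Real.rpow_le_rpow hv0.le hv32 (by linarith)
    have h3 : (T : ℝ) - t ≤ A * (32 * X) ^ (θ - 1) * (v - u) := by
      refine h1.trans ?_
      apply mul_le_mul_of_nonneg_right _ (by linarith)
      exact mul_le_mul_of_nonneg_left h2 (by linarith)
    have h4 : X ^ (θ - ρ) / 2 ≤ (T : ℝ) - t := by
      rw [ht]
      linarith
    have h5 : (32 * X) ^ (θ - 1) = 32 ^ (θ - 1) * X ^ (θ - 1) := Real.mul_rpow (by norm_num) hX0.le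
    have h6 : X ^ (1 - ρ) = X ^ (θ - ρ) / X ^ (θ - 1) := by
      rw [← Real.rpow_sub hX0]
      congr 1
      ring
    have h7 : 0 < X ^ (θ - 1) := Real.rpow_pos_of_pos hX0 _
    have h8 : (0 : ℝ) < 32 ^ (θ - 1) := Real.rpow_pos_of_pos (by norm_num) _
    rw [h5] at h3
    rw [h6, hc0]
    have e1 : 1 / (2 * A * 32 ^ (θ - 1)) * (X ^ (θ - ρ) / X ^ (θ - 1)) =
        (X ^ (θ - ρ) / 2) / (A * (32 ^ (θ - 1) * X ^ (θ - 1))) := by
      field_simp
    rw [e1, div_le_iff₀ (by positivity)]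
    linarith
  set Y := ⌈u⌉₊ with hY
  set M := ⌊v⌋₊ + 1 - Y with hM
  have hYu : u ≤ Y := Nat.le_ceil _
  have hYu' : (Y : ℝ) < u + 1 := Nat.ceil_lt_add_one hu0.le
  have hvf : (⌊v⌋₊ : ℝ) ≤ v := Nat.floor_le hv0.le
  have hvf' : v < (⌊v⌋₊ : ℝ) + 1 := Nat.lt_floor_add_one v
  have hlen4 : 4 ≤ c0 * X ^ (1 - ρ) := by
    rw [div_le_iff₀ hc00] at g2
    linarith
  have hYv : Y ≤ ⌊v⌋₊ + 1 := by
    have : (Y : ℝ) < ((⌊v⌋₊ + 1 + 1 : ℕ) : ℝ) := by
      push_cast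
      linarith
    have : Y < ⌊v⌋₊ + 1 + 1 := by exact_mod_cast this
    omega
  have hMr : (M : ℝ) = (⌊v⌋₊ : ℝ) + 1 - Y := by
    rw [hM, Nat.cast_sub hYv]
    push_cast
    ring
  have key := HW X ((le_max_left _ _).trans hX) Y M (hu4.trans hYu) (by rw [hMr]; linarith)
  have hM1 : v - u - 1 ≤ M := by
    rw [hMr]
    linarith
  -- the sum over the subinterval
  have e2 : ∑ n ∈ Finset.range M, ww (f ((Y : ℝ) + n)) = ∑ z ∈ Finset.Ico Y (⌊v⌋₊ + 1), ww (f z) := by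
    rw [Finset.sum_Ico_eq_sum_range]
    refine Finset.sum_congr rfl fun n _ => ?_
    push_cast
    rfl
  have e3 : ∑ z ∈ Finset.Ico Y (⌊v⌋₊ + 1), ww (f z) ≤
      ∑ z ∈ BB X, if (T < fr f z + W ∧ fr f z ≤ T) then ww (f z) else 0 := by
    rw [← Finset.sum_filter]
    apply Finset.sum_le_sum_of_subset_of_nonneg
    · intro z hz
      rw [Finset.mem_Ico] at hz
      have hz1 : u ≤ z := hYu.trans (by exact_mod_cast hz.1)
      have hz2 : (z : ℝ) ≤ v := by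
        have : z ≤ ⌊v⌋₊ := by omega
        exact (Nat.cast_le.2 this).trans hvf
      have hz0 : (0 : ℝ) < z := by linarith
      rw [Finset.mem_filter]
      refine ⟨?_, ?_, ?_⟩
      · unfold BB
        rw [Finset.mem_Ico]
        constructor
        · rw [Nat.ceil_le]
          linarith
        · have : z ≤ ⌊64 * X⌋₊ := by
            rw [Nat.le_floor_iff (by linarith)]
            linarith
          omega
      · have h1 : t ≤ f z := by
          rw [← hut]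
          exact hmono u z hu0 hz1
        have h2 : f z < (fr f z : ℝ) + 1 := Nat.lt_floor_add_one _
        have h3 : (T : ℝ) < ((fr f z + W : ℕ) : ℝ) := by
          push_cast
          rw [ht] at h1
          linarith
        exact_mod_cast h3
      · have h1 : f z ≤ T := by
          rw [← hvT]
          exact hmono z v hz0 hz2
        unfold fr
        have := Nat.floor_le_floor h1
        rwa [Nat.floor_natCast] at this
    · intro z _ _
      exact ww_nonneg _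
  rw [e2] at key
  have hXσ : C * X ^ (1 - σ) ≤ c0 / 8 * X ^ (1 - ρ) := by
    have h1 : X ^ (1 - ρ) = X ^ (1 - σ) * X ^ (σ - ρ) := by
      rw [← Real.rpow_add hX0]
      congr 1
      ring
    have h2 : 0 < X ^ (1 - σ) := Real.rpow_pos_of_pos hX0 _
    rw [div_le_iff₀ hc00] at g3
    rw [h1]
    nlinarith
  linarith

/-- the sum of the first `m` terms -/
noncomputable def fsR (f : ℝ → ℝ) {m : ℕ} (x : Fin m → ℕ) : ℕ := ∑ i, fr f (x i)

/-- the difference of two sums -/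
noncomputable def DR (f : ℝ → ℝ) {m : ℕ} (p : Fin m → ℕ × ℕ) : ℝ := ∑ i, (f ((p i).1) - f ((p i).2))

open scoped Classical in
/-- the number of near-coincidences -/
noncomputable def TR (f : ℝ → ℝ) (q X : ℝ) (m : ℕ) (t : ℝ) : ℕ := ((PPs q X m).filter fun p => |DR f p| ≤ t).card

lemma fr_err {f : ℝ → ℝ} (hf : ∀ z : ℝ, 0 ≤ z → 0 ≤ f z) (z : ℕ) : (fr f z : ℝ) ≤ f z ∧ f z ≤ fr f z + 1 :=
  ⟨Nat.floor_le (hf _ (by positivity)), (Nat.lt_floor_add_one _).le⟩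

/-- coincidences are near-coincidences -/
lemma JJ_leR {f : ℝ → ℝ} (hf : ∀ z : ℝ, 0 ≤ z → 0 ≤ f z) {q X : ℝ} {m : ℕ} : JJ (AA q X m) (fsR f) ≤ TR f q X m m := by
  classical
  unfold JJ TR
  refine Finset.card_le_card_of_injOn (fun p i => (p.1 i, p.2 i)) ?_ ?_
  · intro p hp
    rw [Finset.mem_coe, Finset.mem_filter, Finset.mem_product] at hp
    obtain ⟨⟨h1, h2⟩, h3⟩ := hp
    rw [Finset.mem_coe, Finset.mem_filter]
    refine ⟨?_, ?_⟩
    · rw [mem_PPs]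
      intro i
      exact ⟨Fintype.mem_piFinset.1 h1 i, Fintype.mem_piFinset.1 h2 i⟩
    · unfold DR
      simp only
      have e1 : ∑ i, (f ((p.1 i : ℕ) : ℝ) - f ((p.2 i : ℕ) : ℝ)) =
          ∑ i, ((f ((p.1 i : ℕ) : ℝ) - fr f (p.1 i)) - (f ((p.2 i : ℕ) : ℝ) - fr f (p.2 i))) := by
        have h4 : ((fsR f p.1 : ℕ) : ℝ) = fsR f p.2 := by rw [h3]
        unfold fsR at h4
        push_cast at h4
        have h5 : ∀ i : Fin m, f ((p.1 i : ℕ) : ℝ) - f ((p.2 i : ℕ) : ℝ) =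
            ((f ((p.1 i : ℕ) : ℝ) - fr f (p.1 i)) - (f ((p.2 i : ℕ) : ℝ) - fr f (p.2 i))) +
              ((fr f (p.1 i) : ℝ) - fr f (p.2 i)) := by
          intro i
          ring
        rw [Finset.sum_congr rfl fun i _ => h5 i]
        rw [Finset.sum_add_distrib, Finset.sum_sub_distrib (f := fun i => (fr f (p.1 i) : ℝ)), h4, sub_self, add_zero]
      rw [e1]
      refine (Finset.abs_sum_le_sum_abs _ _).trans ?_
      calc _ ≤ ∑ _i : Fin m, (1 : ℝ) := by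
            refine Finset.sum_le_sum fun i _ => ?_
            obtain ⟨a1, a2⟩ := fr_err hf (p.1 i)
            obtain ⟨b1, b2⟩ := fr_err hf (p.2 i)
            rw [abs_le]
            constructor <;> linarith
        _ = m := by simp
  · intro p _ p' _ h
    have h1 : ∀ i, (p.1 i, p.2 i) = (p'.1 i, p'.2 i) := fun i => congrFun h i
    apply Prod.ext
    · funext i
      exact congrArg Prod.fst (h1 i)
    · funext i
      exact congrArg Prod.snd (h1 i)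

/-- the size of the first sum -/
lemma fsR_le {k : ℕ} {f : ℝ → ℝ} (hf : Fn k f) {C : ℝ} (hC : 1 ≤ C) (hall : ∀ z : ℝ, 1 ≤ z → f z ≤ C * z ^ k)
    {q X : ℝ} {m : ℕ} (hq : 0 < q) (hq1 : q < 1) (hX : 1 ≤ X) (hhi : f (2 * X) ≤ 2 * (2 * X) ^ k)
    {x : Fin m → ℕ} (hx : x ∈ AA q X m) :
    (fsR f x : ℝ) ≤ 2 * (2 * X) ^ k + m * (C * (2 * X ^ q) ^ k) := by
  unfold fsR
  push_cast
  have h0 : (0 : ℝ) ≤ (2 * X) ^ k := by positivity
  have h0' : (0 : ℝ) ≤ C * (2 * X ^ q) ^ k := by positivity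
  have h1 : ∀ i : Fin m, (fr f (x i) : ℝ) ≤ (if (i : ℕ) = 0 then 2 * (2 * X) ^ k else 0) + C * (2 * X ^ q) ^ k := by
    intro i
    have h2 := (mem_SS hX).1 (Fintype.mem_piFinset.1 hx i)
    have hl1 : 1 ≤ lev q X i := one_le_lev hq.le hX _
    have hz1 : (1 : ℝ) ≤ x i := hl1.trans h2.1
    refine (fr_err hf.nn (x i)).1.trans ?_
    by_cases hi : (i : ℕ) = 0
    · rw [if_pos hi]
      have : lev q X (i : ℕ) = X := by rw [hi]; unfold lev; simp
      rw [this] at h2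
      have := hf.mono (x i) (2 * X) (by linarith) h2.2
      linarith
    · rw [if_neg hi, zero_add]
      have h6 : (2 * lev q X i) ^ k ≤ (2 * X ^ q) ^ k := by
        apply pow_le_pow_left₀
        · have := lev_pos (q := q) hX (i : ℕ)
          linarith
        · have h4 : lev q X i ≤ lev q X 1 := lev_anti hq hq1 hX (by omega)
          have h5 : lev q X 1 = X ^ q := by unfold lev; simp
          linarith
      have h3 : ((x i : ℕ) : ℝ) ^ k ≤ (2 * lev q X i) ^ k := pow_le_pow_left₀ (by positivity) h2.2 k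
      refine (hall _ hz1).trans ?_
      exact mul_le_mul_of_nonneg_left (h3.trans h6) (by linarith)
  refine (Finset.sum_le_sum fun i _ => h1 i).trans ?_
  rw [Finset.sum_add_distrib]
  have h2 : ∑ i : Fin m, (if (i : ℕ) = 0 then 2 * (2 * X) ^ k else (0 : ℝ)) ≤ 2 * (2 * X) ^ k := by
    cases m with
    | zero => simpa using h0
    | succ m =>
      rw [Fin.sum_univ_succ]
      simp
  have h3 : ∑ _i : Fin m, C * (2 * X ^ q) ^ k = m * (C * (2 * X ^ q) ^ k) := by simp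
  rw [h3]
  linarith

lemma GGsR_eq (f : ℝ → ℝ) (X α : ℝ) : GGs (BB X) (fr f) (fun z : ℕ => ww (f z)) α =
    GR f ⌈4 * X⌉₊ (⌊64 * X⌋₊ + 1 - ⌈4 * X⌉₊) α := by
  unfold GGs GR BB
  rw [Finset.sum_Ico_eq_sum_range]
  refine Finset.sum_congr rfl fun n _ => ?_
  unfold fr
  push_cast
  rfl

end Pool.Agent.J4H7.WS
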