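import Pool.Agent.J4H7.WS.A
import Pool.Agent.J4H7.WS.R

set_option autoImplicit false

/-!
# Waring's problem with one generic parameter, part B (helper7)

Borel-Cantelli for an abstract family of functions.
-/

namespace Pool.Agent.J4H7.WS

open Real Set MeasureTheory Filter Topology
open Pool.Agent.J4H7.WE
open Pool.Agent.J4H7.WP
open Pool.Agent.J4H7.WR

/-- the exceptional parameters of a pair -/
def EX (F : ℝ → ℝ → ℝ) (a b t : ℝ) {n : ℕ} (p : Fin n → ℕ × ℕ) : Set ℝ := {l | l ∈ Icc a b ∧ |DR (F l) p| ≤ t}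

lemma EX_subset (F : ℝ → ℝ → ℝ) {n : ℕ} (a b t : ℝ) (p : Fin n → ℕ × ℕ) : EX F a b t p ⊆ Icc a b := fun _ h => h.1

lemma EX_ne_top (F : ℝ → ℝ → ℝ) {n : ℕ} (a b t : ℝ) (p : Fin n → ℕ × ℕ) : volume (EX F a b t p) ≠ ⊤ := by
  refine ne_top_of_le_ne_top ?_ (measure_mono (EX_subset F a b t p))
  rw [Real.volume_Icc]
  exact ENNReal.ofReal_ne_top

/-- the measure -/
noncomputable def vx (F : ℝ → ℝ → ℝ) (a b t : ℝ) (n : ℕ) (p : Fin n → ℕ × ℕ) : ℝ := volume.real (EX F a b t p)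

lemma vx_nonneg (F : ℝ → ℝ → ℝ) (a b t : ℝ) (n : ℕ) (p : Fin n → ℕ × ℕ) : 0 ≤ vx F a b t n p := measureReal_nonneg

lemma vx_le (F : ℝ → ℝ → ℝ) {a b : ℝ} (hab : a ≤ b) (t : ℝ) (n : ℕ) (p : Fin n → ℕ × ℕ) : vx F a b t n p ≤ b - a := by
  unfold vx
  have h1 := measureReal_mono (μ := volume) (EX_subset F a b t p) (by rw [Real.volume_Icc]; exact ENNReal.ofReal_ne_top)
  rw [Real.volume_real_Icc_of_le hab] at h1
  exact h1

lemma vx_le_of {F : ℝ → ℝ → ℝ} {a b t D : ℝ} {n : ℕ} {p : Fin n → ℕ × ℕ} (hD : 0 ≤ D)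
    (h : volume (EX F a b t p) ≤ ENNReal.ofReal D) : vx F a b t n p ≤ D := by
  unfold vx
  exact ENNReal.toReal_le_of_le_ofReal hD h

lemma DR_cons (f : ℝ → ℝ) {n : ℕ} (z : ℕ × ℕ) (p : Fin n → ℕ × ℕ) :
    DR f (Fin.cons z p : Fin (n + 1) → ℕ × ℕ) = (f z.1 - f z.2) + DR f p := by
  unfold DR
  rw [Fin.sum_univ_succ]
  simp

lemma DR_swap (f : ℝ → ℝ) {n : ℕ} (p : Fin n → ℕ × ℕ) : DR f (fun i => (p i).swap) = -DR f p := by
  unfold DR
  rw [← Finset.sum_neg_distrib]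
  refine Finset.sum_congr rfl fun i _ => ?_
  simp only [Prod.fst_swap, Prod.snd_swap]
  ring

lemma vx_cons (F : ℝ → ℝ → ℝ) (a b t : ℝ) (n : ℕ) (z : ℕ × ℕ) (p : Fin n → ℕ × ℕ) (hz : z.1 = z.2) :
    vx F a b t (n + 1) (Fin.cons z p : Fin (n + 1) → ℕ × ℕ) = vx F a b t n p := by
  unfold vx EX
  congr 1
  ext l
  simp only [mem_ofPred_eq]
  rw [DR_cons, hz]
  simp

lemma vx_swap (F : ℝ → ℝ → ℝ) (a b t : ℝ) {n : ℕ} (p : Fin n → ℕ × ℕ) :
    vx F a b t n (fun i => (p i).swap) = vx F a b t n p := by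
  unfold vx EX
  simp only [DR_swap, abs_neg]

lemma EX_meas {F : ℝ → ℝ → ℝ} (hF : ∀ z : ℕ, Continuous fun l => F l z) {a b t : ℝ} {n : ℕ} (p : Fin n → ℕ × ℕ) :
    MeasurableSet (EX F a b t p) := by
  have h1 : Continuous fun l => DR (F l) p := by
    unfold DR
    exact continuous_finsetSum _ fun i _ => (hF _).sub (hF _)
  have h2 : EX F a b t p = Icc a b ∩ {l | |DR (F l) p| ≤ t} := rfl
  rw [h2]
  exact measurableSet_Icc.inter (isClosed_le h1.abs continuous_const).measurableSet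

lemma TR_eq {F : ℝ → ℝ → ℝ} {q X a b t l : ℝ} {m : ℕ} (hl : l ∈ Icc a b) :
    ∑ p ∈ PPs q X m, (EX F a b t p).indicator (fun _ => (1 : ENNReal)) l = (TR (F l) q X m t : ENNReal) := by
  classical
  unfold TR
  rw [Finset.card_filter]
  push_cast
  refine Finset.sum_congr rfl fun p _ => ?_
  by_cases h : |DR (F l) p| ≤ t
  · rw [Set.indicator_of_mem (show l ∈ EX F a b t p from ⟨hl, h⟩)]
    simp [h]
  · rw [Set.indicator_of_notMem (show l ∉ EX F a b t p from fun h' => h h'.2)]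
    simp [h]

/-- the measure of the bad parameters -/
lemma bad_le {F : ℝ → ℝ → ℝ} (hF : ∀ z : ℕ, Continuous fun l => F l z) {q X a b t ε C : ℝ} {k m : ℕ} (hX : 1 ≤ X) (hC : 0 ≤ C)
    (hU : ∑ p ∈ PPs q X m, vx F a b t m p ≤ C * (LL q X m * X ^ (-(k : ℝ)))) :
    volume {l | l ∈ Icc a b ∧ VV q X m * X ^ (-(k : ℝ) + ε) ≤ TR (F l) q X m t} ≤ ENNReal.ofReal (C * X ^ (-ε)) := by
  have hX0 : 0 < X := by linarith
  set M : ℝ := VV q X m * X ^ (-(k : ℝ) + ε) with hM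
  have hM0 : 0 < M := mul_pos (VV_pos hX m) (Real.rpow_pos_of_pos hX0 _)
  set f : ℝ → ENNReal := fun l => ∑ p ∈ PPs q X m, (EX F a b t p).indicator (fun _ => (1 : ENNReal)) l with hf
  have hfm : Measurable f := by
    apply Finset.measurable_sum
    intro p hp
    exact measurable_const.indicator (EX_meas hF p)
  have h1 : {l | l ∈ Icc a b ∧ M ≤ TR (F l) q X m t} ⊆ {l | ENNReal.ofReal M ≤ f l} := by
    rintro l ⟨h2, h3⟩
    change ENNReal.ofReal M ≤ f l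
    rw [hf]
    simp only
    rw [TR_eq h2]
    calc ENNReal.ofReal M ≤ ENNReal.ofReal (TR (F l) q X m t : ℝ) := ENNReal.ofReal_le_ofReal h3
      _ = _ := ENNReal.ofReal_natCast _
  have h2 := meas_ge_le_lintegral_div (μ := volume) hfm.aemeasurable (ε := ENNReal.ofReal M)
    (by rw [Ne, ENNReal.ofReal_eq_zero, not_le]; exact hM0) ENNReal.ofReal_ne_top
  have h3 : ∫⁻ l, f l = ∑ p ∈ PPs q X m, volume (EX F a b t p) := by
    rw [hf]
    rw [lintegral_finsetSum]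
    · refine Finset.sum_congr rfl fun p hp => ?_
      rw [lintegral_indicator (EX_meas hF p), setLIntegral_const, one_mul]
    · intro p hp
      exact measurable_const.indicator (EX_meas hF p)
  have h4 : ∑ p ∈ PPs q X m, volume (EX F a b t p) ≤ ENNReal.ofReal (C * (LL q X m * X ^ (-(k : ℝ)))) := by
    calc ∑ p ∈ PPs q X m, volume (EX F a b t p) = ∑ p ∈ PPs q X m, ENNReal.ofReal (vx F a b t m p) := by
          refine Finset.sum_congr rfl fun p _ => ?_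
          unfold vx
          rw [ofReal_measureReal (EX_ne_top F a b t p)]
      _ = ENNReal.ofReal (∑ p ∈ PPs q X m, vx F a b t m p) := by
          rw [ENNReal.ofReal_sum_of_nonneg]
          intro p _
          exact vx_nonneg _ _ _ _ _ _
      _ ≤ _ := ENNReal.ofReal_le_ofReal hU
  calc volume {l | l ∈ Icc a b ∧ M ≤ TR (F l) q X m t} ≤ volume {l | ENNReal.ofReal M ≤ f l} := measure_mono h1
    _ ≤ (∫⁻ l, f l) / ENNReal.ofReal M := h2
    _ ≤ ENNReal.ofReal (C * (LL q X m * X ^ (-(k : ℝ)))) / ENNReal.ofReal M := by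
        rw [h3]
        gcongr
    _ = ENNReal.ofReal (C * (LL q X m * X ^ (-(k : ℝ))) / M) := by
        rw [← ENNReal.ofReal_div_of_pos hM0]
    _ ≤ _ := by
        apply ENNReal.ofReal_le_ofReal
        rw [div_le_iff₀ hM0, hM, VV_eq]
        have e1 : C * X ^ (-ε) * (4 ^ m * LL q X m * X ^ (-(k : ℝ) + ε)) =
            4 ^ m * (C * (LL q X m * X ^ (-(k : ℝ)))) := by
          have e2 : X ^ (-ε) * X ^ (-(k : ℝ) + ε) = X ^ (-(k : ℝ)) := by
            rw [← Real.rpow_add hX0]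
            congr 1
            ring
          calc _ = C * 4 ^ m * LL q X m * (X ^ (-ε) * X ^ (-(k : ℝ) + ε)) := by ring
            _ = _ := by rw [e2]; ring
        rw [e1]
        have h5 : (1 : ℝ) ≤ 4 ^ m := one_le_pow₀ (by norm_num)
        have h6 : 0 ≤ C * (LL q X m * X ^ (-(k : ℝ))) := by
          have := LL_nonneg q X m
          have := Real.rpow_nonneg hX0.le (-(k : ℝ))
          positivity
        nlinarith

/-- **the mean value for almost every parameter** -/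
theorem ae_mean {F : ℝ → ℝ → ℝ} (hF : ∀ z : ℕ, Continuous fun l => F l z) {q a b w c2 c3 c1 : ℝ} {k m : ℕ} (hk : 2 ≤ k)
    (hq : 0 < q) (hq1 : q < 1) (hB : (1 - q) * k ≤ 1) (hD : 1 ≤ (1 - q) * (k + w)) (hab : a ≤ b)
    (hc2 : 0 ≤ c2) (hc3 : 0 < c3) (hc1 : 0 < c1) {Good : ℝ → Prop} (hG : ∀ᶠ u in atTop, Good u)
    (hlev : Lev q k m w w c2 c3 c1 Good (vx F a b m)) (hC : (k : ℝ) ≤ ∑ i ∈ Finset.range m, q ^ i) :
    ∀ᵐ l : ℝ, l ∈ Icc a b → ∀ ε : ℝ, 0 < ε → ∀ᶠ j : ℕ in atTop,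
      (TR (F l) q ((2 : ℝ) ^ j) m m : ℝ) ≤ VV q ((2 : ℝ) ^ j) m * ((2 : ℝ) ^ j) ^ (-(k : ℝ) + ε) := by
  have hX1 : ∀ j : ℕ, (1 : ℝ) ≤ (2 : ℝ) ^ j := fun j => one_le_pow₀ (by norm_num)
  obtain ⟨C, hC0, HU⟩ := UU_abs (m := m) hk hq hq1 hB hD le_rfl hc2 hc3 hc1 (fun n p => vx_nonneg F a b m n p)
    (fun n p => vx_le F hab m n p) (fun n z p hz => vx_cons F a b m n z p hz) hlev m le_rfl
  rw [min_eq_left hC] at HU
  simp only [sub_self, Real.rpow_zero, one_mul] at HU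
  have hev : ∀ᶠ j : ℕ in atTop, ∀ i : ℕ, i ≤ m → Good (lev q ((2 : ℝ) ^ j) i) :=
    (tendsto_pow_atTop_atTop_of_one_lt (by norm_num : (1 : ℝ) < 2)).eventually (ev_lev hq hq1 m hG)
  obtain ⟨j0, hj0⟩ := eventually_atTop.1 hev
  have key : ∀ᵐ l : ℝ, ∀ r : ℕ, l ∈ Icc a b → ∀ᶠ j : ℕ in atTop,
      (TR (F l) q ((2 : ℝ) ^ j) m m : ℝ) ≤ VV q ((2 : ℝ) ^ j) m * ((2 : ℝ) ^ j) ^ (-(k : ℝ) + 1 / ((r : ℝ) + 1)) := by
    rw [ae_all_iff]
    intro r
    set ε : ℝ := 1 / ((r : ℝ) + 1) with hε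
    have hε0 : 0 < ε := by positivity
    set s : ℕ → Set ℝ := fun j => {l | l ∈ Icc a b ∧
      VV q ((2 : ℝ) ^ (j + j0)) m * ((2 : ℝ) ^ (j + j0)) ^ (-(k : ℝ) + ε) ≤ TR (F l) q ((2 : ℝ) ^ (j + j0)) m m} with hs
    have hsm : ∀ j, volume (s j) ≤ ENNReal.ofReal (C * ((2 : ℝ) ^ (j + j0)) ^ (-ε)) := fun j =>
      bad_le hF (hX1 _) hC0 (HU _ (hX1 _) fun i hi => hj0 _ (by omega) i hi.le)
    have hsum : Summable fun j : ℕ => C * ((2 : ℝ) ^ (j + j0)) ^ (-ε) := by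
      refine (summable_nat_add_iff (f := fun j : ℕ => C * ((2 : ℝ) ^ j) ^ (-ε)) j0).2 ?_
      set ρ : ℝ := (2 : ℝ) ^ (-ε) with hr
      have hr0 : 0 < ρ := Real.rpow_pos_of_pos (by norm_num) _
      have hr1 : ρ < 1 := Real.rpow_lt_one_of_one_lt_of_neg (by norm_num) (by linarith)
      have e1 : ∀ j : ℕ, C * ((2 : ℝ) ^ j) ^ (-ε) = C * ρ ^ j := by
        intro j
        rw [hr, ← Real.rpow_natCast, ← Real.rpow_natCast, ← Real.rpow_mul (by norm_num), ← Real.rpow_mul (by norm_num)]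
        congr 2
        ring
      simp_rw [e1]
      exact (summable_geometric_of_lt_one hr0.le hr1).mul_left C
    have hne : ∑' j, volume (s j) ≠ ⊤ := by
      refine ne_top_of_le_ne_top hsum.tsum_ofReal_ne_top (ENNReal.tsum_le_tsum hsm)
    filter_upwards [ae_eventually_notMem hne] with l hl hlI
    rw [eventually_atTop] at hl ⊢
    obtain ⟨j1, hj1⟩ := hl
    refine ⟨j1 + j0, fun j hj => ?_⟩
    have h1 := hj1 (j - j0) (by omega)
    have h2 : j - j0 + j0 = j := by omega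
    rw [hs] at h1
    simp only [h2, mem_ofPred_eq, not_and, not_le] at h1
    exact (h1 hlI).le
  filter_upwards [key] with l hl hlI ε hε
  obtain ⟨r, hr⟩ := exists_nat_one_div_lt hε
  filter_upwards [hl r hlI] with j hj
  refine hj.trans ?_
  apply mul_le_mul_of_nonneg_left _ (VV_pos (hX1 j) m).le
  exact Real.rpow_le_rpow_of_exponent_le (hX1 j) (by linarith)

end Pool.Agent.J4H7.WS
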