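import Pool.Agent.J4H7.WS.B

set_option autoImplicit false

/-!
# Waring's problem with one generic parameter, part C (helper7)

Near-coincidences with different first digits, for an abstract family of functions.
-/

namespace Pool.Agent.J4H7.WS

open Real Set MeasureTheory Filter Topology
open Pool.Agent.J4H7.WE
open Pool.Agent.J4H7.WP
open Pool.Agent.J4H7.WR

/-- **two levels** -/
lemma two_lev {n m : ℕ} (hnm : n + 1 ≤ m) (φ χ α : Fin (n + 1) → ℝ) {E E' r r1 c K t : ℝ}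
    (hr1 : 0 < r1) (hc : 0 < c) (hK : 0 ≤ K) (hE : 0 ≤ E) (hE' : 0 ≤ E')
    (h0 : 0 < φ 0) (h0' : |χ 0| ≤ r * φ 0)
    (h1 : ∀ i : Fin (n + 1), (i : ℕ) = 1 → φ i < 0 → c * (r1 * -(φ i)) ≤ -(χ i) ∧ |χ i| ≤ K * (r1 * -(φ i)))
    (h2 : ∀ i : Fin (n + 1), 2 ≤ (i : ℕ) → |φ i| ≤ E ∧ |χ i| ≤ E')
    (hα : ∀ i, |α i - φ i| ≤ K * |χ i|)
    (ht : |∑ i, φ i| ≤ t) (hE0 : t + m * E ≤ 1 / 4 * φ 0) (hE1 : m * E' ≤ c / 8 * (r1 * φ 0))
    (hr : r ≤ c / 8 * r1) (htr : t ≤ r1 * φ 0) :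
    (∃ i : Fin (n + 1), (i : ℕ) = 1 ∧ φ i < 0 ∧ φ 0 ≤ 2 * -(φ i)) ∧
    c / 8 * (r1 * φ 0) ≤ -(∑ i, χ i) ∧
    |∑ i, α i| ≤ (1 + K * (c + 2 * K)) * (r1 * φ 0) := by
  have hnm' : ((n + 1 : ℕ) : ℝ) ≤ m := by exact_mod_cast hnm
  have hmE : ((n + 1 : ℕ) : ℝ) * E ≤ m * E := mul_le_mul_of_nonneg_right hnm' hE
  have hmE' : ((n + 1 : ℕ) : ℝ) * E' ≤ m * E' := mul_le_mul_of_nonneg_right hnm' hE'
  have ht2 := (abs_le.1 ht).2
  have ht1 := (abs_le.1 ht).1
  by_cases hex : ∃ i : Fin (n + 1), (i : ℕ) = 1 ∧ φ i < 0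
  · obtain ⟨i1, hi1, hneg⟩ := hex
    have hne : (0 : Fin (n + 1)) ≠ i1 := by
      intro h
      have := congrArg Fin.val h
      rw [hi1] at this
      exact absurd this (by simp)
    have hoth : ∀ i : Fin (n + 1), i ≠ 0 → i ≠ i1 → 2 ≤ (i : ℕ) := by
      intro i h h'
      have a1 : (i : ℕ) ≠ 0 := fun h3 => h (Fin.ext h3)
      have a2 : (i : ℕ) ≠ 1 := fun h3 => h' (Fin.ext (by omega))
      omega
    have t1 := two_term φ 0 i1 hne hE (fun i h h' => (h2 i (hoth i h h')).1)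
    have s1 := (abs_le.1 t1).1
    have s2 := (abs_le.1 t1).2
    have b1 : 3 / 4 * φ 0 ≤ -(φ i1) := by linarith
    have b2 : -(φ i1) ≤ 5 / 4 * φ 0 := by linarith
    obtain ⟨c1, c2⟩ := h1 i1 hi1 hneg
    have t2 := two_term χ 0 i1 hne hE' (fun i h h' => (h2 i (hoth i h h')).2)
    have s3 := (abs_le.1 t2).2
    have s4 := (abs_le.1 h0').2
    have hrφ : r * φ 0 ≤ c / 8 * (r1 * φ 0) := by
      calc r * φ 0 ≤ (c / 8 * r1) * φ 0 := mul_le_mul_of_nonneg_right hr h0.le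
        _ = _ := by ring
    have hcr : c * (r1 * (3 / 4 * φ 0)) ≤ c * (r1 * -(φ i1)) := by
      apply mul_le_mul_of_nonneg_left _ hc.le
      exact mul_le_mul_of_nonneg_left b1 hr1.le
    have hpos : 0 < r1 * φ 0 := mul_pos hr1 h0
    have hcpos : 0 < c * (r1 * φ 0) := mul_pos hc hpos
    refine ⟨⟨i1, hi1, hneg, by linarith⟩, ?_, ?_⟩
    · have e1 : c * (r1 * (3 / 4 * φ 0)) = 3 / 4 * (c * (r1 * φ 0)) := by ring
      have e2 : c / 8 * (r1 * φ 0) = 1 / 8 * (c * (r1 * φ 0)) := by ring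
      rw [e2] at hrφ hE1 ⊢
      rw [e1] at hcr
      linarith
    · have t3 := two_term (fun i => |χ i|) 0 i1 hne hE' (fun i h h' => by
        rw [abs_abs]
        exact (h2 i (hoth i h h')).2)
      have s5 := (abs_le.1 t3).2
      have hKr : K * (r1 * -(φ i1)) ≤ K * (5 / 4 * (r1 * φ 0)) := by
        apply mul_le_mul_of_nonneg_left _ hK
        calc r1 * -(φ i1) ≤ r1 * (5 / 4 * φ 0) := mul_le_mul_of_nonneg_left b2 hr1.le
          _ = _ := by ring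
      have hsum : ∑ i, |χ i| ≤ (c + 2 * K) * (r1 * φ 0) := by
        have e2 : c / 8 * (r1 * φ 0) = 1 / 8 * (c * (r1 * φ 0)) := by ring
        rw [e2] at hrφ hE1
        have hKp : 0 ≤ K * (r1 * φ 0) := mul_nonneg hK hpos.le
        have e3 : (c + 2 * K) * (r1 * φ 0) = c * (r1 * φ 0) + 2 * (K * (r1 * φ 0)) := by ring
        rw [e3]
        linarith
      have h5 : |∑ i, (α i - φ i)| ≤ K * ∑ i, |χ i| := by
        refine (Finset.abs_sum_le_sum_abs _ _).trans ?_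
        rw [Finset.mul_sum]
        exact Finset.sum_le_sum fun i _ => hα i
      have h6 : ∑ i, α i = ∑ i, (α i - φ i) + ∑ i, φ i := by
        rw [← Finset.sum_add_distrib]
        exact Finset.sum_congr rfl fun i _ => by ring
      rw [h6]
      refine (abs_add_le _ _).trans ?_
      have h7 : K * ∑ i, |χ i| ≤ K * ((c + 2 * K) * (r1 * φ 0)) := mul_le_mul_of_nonneg_left hsum hK
      have e4 : (1 + K * (c + 2 * K)) * (r1 * φ 0) = r1 * φ 0 + K * ((c + 2 * K) * (r1 * φ 0)) := by ring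
      rw [e4]
      linarith
  · exfalso
    push Not at hex
    have hge : φ 0 - m * E ≤ ∑ i, φ i := by
      by_cases hex2 : ∃ i : Fin (n + 1), (i : ℕ) = 1
      · obtain ⟨i1, hi1⟩ := hex2
        have hne : (0 : Fin (n + 1)) ≠ i1 := by
          intro h
          have := congrArg Fin.val h
          rw [hi1] at this
          exact absurd this (by simp)
        have hle := hex i1 hi1
        have t1 := two_term φ 0 i1 hne hE (fun i h h' => (h2 i (by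
          have a1 : (i : ℕ) ≠ 0 := fun h3 => h (Fin.ext h3)
          have a2 : (i : ℕ) ≠ 1 := fun h3 => h' (Fin.ext (by omega))
          omega)).1)
        have h3 := (abs_le.1 t1).1
        linarith
      · push Not at hex2
        have t1 := one_term φ 0 hE (fun i h => (h2 i (by
          have a1 : (i : ℕ) ≠ 0 := fun h3 => h (Fin.ext h3)
          have a2 := hex2 i
          omega)).1)
        have h3 := (abs_le.1 t1).1
        linarith
    linarith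

/-- a family of functions with one parameter -/
structure PF (k : ℕ) (g a b c K : ℝ) (F G : ℝ → ℝ → ℝ) : Prop where
  der : ∀ (z : ℕ) (l : ℝ), l ∈ Icc a b → HasDerivAt (fun l => F l z) (G l z) l
  siz : ∀ (l W : ℝ) (x : ℕ), l ∈ Icc a b → 1 ≤ W → (x : ℝ) ≤ 2 * W →
    0 ≤ F l x ∧ F l x ≤ K * W ^ (k : ℝ) ∧ 0 ≤ G l x ∧ G l x ≤ K * W ^ g
  low : ∀ (l W : ℝ) (x y : ℕ), l ∈ Icc a b → 1 ≤ W → W ≤ y → (y : ℝ) < x → (x : ℝ) ≤ 2 * W →
    ((x : ℝ) - y) * W ^ ((k : ℝ) - 1) ≤ F l x - F l y ∧ F l x - F l y ≤ K * (((x : ℝ) - y) * W ^ ((k : ℝ) - 1)) ∧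
    c * (W ^ (g - k) * (F l x - F l y)) ≤ G l x - G l y ∧ G l x - G l y ≤ K * (W ^ (g - k) * (F l x - F l y)) ∧
    |((x : ℝ) ^ k - (y : ℝ) ^ k) - (F l x - F l y)| ≤ K * (G l x - G l y)

/-- the size condition -/
def GD (q g c K : ℝ) (k m : ℕ) (u : ℝ) : Prop :=
  m + m * (K * u ^ (q ^ 2 * k)) ≤ 1 / 4 * u ^ ((k : ℝ) - 1) ∧
  m * (K * u ^ (q ^ 2 * g)) ≤ c / 8 * (u ^ (q * (g - k)) * u ^ ((k : ℝ) - 1)) ∧
  K * u ^ (g - k) ≤ c / 8 * u ^ (q * (g - k)) ∧
  m ≤ u ^ (q * (g - k)) * u ^ ((k : ℝ) - 1)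

lemma ev_GD {q g c K : ℝ} {k m : ℕ} (hk : 2 ≤ k) (hq1 : q < 1) (hgk : g < k) (hc : 0 < c)
    (h1 : q ^ 2 * k < (k : ℝ) - 1) (h2 : q ^ 2 * g < (k : ℝ) - 1 - q * (k - g)) (h0 : 0 ≤ g) :
    ∀ᶠ u : ℝ in atTop, GD q g c K k m u := by
  have hk' : (2 : ℝ) ≤ k := by exact_mod_cast hk
  have hqg : 0 ≤ q ^ 2 * g := by positivity
  have e2 : ∀ᶠ u : ℝ in atTop, 0 * Real.log u + m ≤ 1 / 8 * u ^ ((k : ℝ) - 1) := ev_log (by linarith) _ _ (by norm_num)
  have e3 : ∀ᶠ u : ℝ in atTop, 0 * Real.log u + m * K ≤ 1 / 8 * u ^ ((k : ℝ) - 1 - q ^ 2 * k) :=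
    ev_log (by linarith) _ _ (by norm_num)
  have e5 : ∀ᶠ u : ℝ in atTop, 0 * Real.log u + m * K ≤ c / 8 * u ^ (q * (g - k) + ((k : ℝ) - 1) - q ^ 2 * g) :=
    ev_log (by linarith) _ _ (by positivity)
  have e4 : ∀ᶠ u : ℝ in atTop, 0 * Real.log u + K ≤ c / 8 * u ^ ((1 - q) * (k - g)) :=
    ev_log (mul_pos (by linarith) (by linarith)) _ _ (by positivity)
  have e6 : ∀ᶠ u : ℝ in atTop, (m : ℝ) ≤ u ^ (q * (g - k) + ((k : ℝ) - 1)) :=
    (tendsto_rpow_atTop (by linarith)).eventually_ge_atTop _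
  filter_upwards [e2, e3, e4, e5, e6, eventually_ge_atTop 1] with u g2 g3 g4 g5 g6 g7
  have hu0 : (0 : ℝ) < u := by linarith
  refine ⟨?_, ?_, ?_, ?_⟩
  · have hP : 0 < u ^ (q ^ 2 * k) := Real.rpow_pos_of_pos hu0 _
    have e1 : u ^ ((k : ℝ) - 1 - q ^ 2 * k) * u ^ (q ^ 2 * k) = u ^ ((k : ℝ) - 1) := by
      rw [← Real.rpow_add hu0]
      congr 1
      ring
    have g8 : (m : ℝ) * (K * u ^ (q ^ 2 * k)) ≤ 1 / 8 * u ^ ((k : ℝ) - 1) := by
      calc (m : ℝ) * (K * u ^ (q ^ 2 * k)) = (m * K) * u ^ (q ^ 2 * k) := by ring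
        _ ≤ (1 / 8 * u ^ ((k : ℝ) - 1 - q ^ 2 * k)) * u ^ (q ^ 2 * k) := by
          apply mul_le_mul_of_nonneg_right _ hP.le
          linarith
        _ = 1 / 8 * (u ^ ((k : ℝ) - 1 - q ^ 2 * k) * u ^ (q ^ 2 * k)) := by ring
        _ = _ := by rw [e1]
    linarith
  · have hP' : 0 < u ^ (q ^ 2 * g) := Real.rpow_pos_of_pos hu0 _
    have e1 : u ^ (q * (g - k) + ((k : ℝ) - 1) - q ^ 2 * g) * u ^ (q ^ 2 * g) = u ^ (q * (g - k)) * u ^ ((k : ℝ) - 1) := by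
      rw [← Real.rpow_add hu0, ← Real.rpow_add hu0]
      congr 1
      ring
    calc (m : ℝ) * (K * u ^ (q ^ 2 * g)) = (m * K) * u ^ (q ^ 2 * g) := by ring
      _ ≤ (c / 8 * u ^ (q * (g - k) + ((k : ℝ) - 1) - q ^ 2 * g)) * u ^ (q ^ 2 * g) := by
          apply mul_le_mul_of_nonneg_right _ hP'.le
          linarith
      _ = c / 8 * (u ^ (q * (g - k) + ((k : ℝ) - 1) - q ^ 2 * g) * u ^ (q ^ 2 * g)) := by ring
      _ = _ := by rw [e1]
  · have hP : 0 < u ^ (g - k) := Real.rpow_pos_of_pos hu0 _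
    have e1 : u ^ ((1 - q) * (k - g)) * u ^ (g - k) = u ^ (q * (g - k)) := by
      rw [← Real.rpow_add hu0]
      congr 1
      ring
    calc K * u ^ (g - k) ≤ (c / 8 * u ^ ((1 - q) * (k - g))) * u ^ (g - k) := by
          apply mul_le_mul_of_nonneg_right _ hP.le
          linarith
      _ = c / 8 * (u ^ ((1 - q) * (k - g)) * u ^ (g - k)) := by ring
      _ = _ := by rw [e1]
  · rw [← Real.rpow_add hu0]
    exact g6

/-- **the consequences of a near-coincidence with different first digits** -/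
lemma lev_PF {q X g a b c K l : ℝ} {k m n : ℕ} (hq : 0 < q) (hq1 : q < 1) (hX : 1 ≤ X)
    (hc : 0 < c) (hK : 1 ≤ K) {F G : ℝ → ℝ → ℝ} (hP : PF k g a b c K F G) (hl : l ∈ Icc a b)
    (hnm : n + 1 ≤ m) (p : Fin (n + 1) → ℕ × ℕ) (hp : ∀ i : Fin (n + 1), (p i).1 ∈ SS q X i ∧ (p i).2 ∈ SS q X i)
    (h1 : (p 0).2 < (p 0).1) (hG : GD q g c K k m X) (hF : |DR (F l) p| ≤ m) :
    c / 8 * (X ^ (q * (g - k)) * ((((p 0).1 : ℝ) - (p 0).2) * X ^ ((k : ℝ) - 1))) ≤ -(DR (G l) p) ∧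
    (((p 0).1 : ℝ) - (p 0).2) * X ^ ((k : ℝ) - 1) ≤ 2 * K * X ^ (q * k) ∧
    |AP k p| ≤ ((1 + K * (c + 2 * K)) * K) * ((((p 0).1 : ℝ) - (p 0).2) * (X ^ (q * (g - k)) * X ^ ((k : ℝ) - 1))) := by
  have hX0 : 0 < X := by linarith
  have hK0 : 0 < K := by linarith
  have hl0 : lev q X 0 = X := by unfold lev; simp
  have hx0 := (mem_SS hX).1 (hp 0).1
  have hy0 := (mem_SS hX).1 (hp 0).2
  rw [show ((0 : Fin (n + 1)) : ℕ) = 0 from rfl, hl0] at hx0 hy0
  have hxy : ((p 0).2 : ℝ) + 1 ≤ (p 0).1 := by exact_mod_cast h1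
  obtain ⟨hG1, hG2, hG3, hG4⟩ := hG
  set H : ℝ := (((p 0).1 : ℝ) - (p 0).2) * X ^ ((k : ℝ) - 1) with hH
  have hXk1 : 0 < X ^ ((k : ℝ) - 1) := Real.rpow_pos_of_pos hX0 _
  have hH1 : X ^ ((k : ℝ) - 1) ≤ H := by
    rw [hH]
    nlinarith
  obtain ⟨l1, l2, l3, l4, l5⟩ := hP.low l X (p 0).1 (p 0).2 hl hX hy0.1 (by linarith) hx0.2
  rw [← hH] at l1 l2
  set r1 : ℝ := X ^ (q * (g - k)) with hr1
  have hr10 : 0 < r1 := Real.rpow_pos_of_pos hX0 _
  set φ : Fin (n + 1) → ℝ := fun i => F l (p i).1 - F l (p i).2 with hφ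
  set χ : Fin (n + 1) → ℝ := fun i => G l (p i).1 - G l (p i).2 with hχ
  set α : Fin (n + 1) → ℝ := fun i => ((p i).1 : ℝ) ^ k - ((p i).2 : ℝ) ^ k with hα
  have hDF : DR (F l) p = ∑ i, φ i := rfl
  have hDG : DR (G l) p = ∑ i, χ i := rfl
  have hAP : AP k p = ∑ i, α i := rfl
  have hφ0 : 0 < φ 0 := by
    have : 0 < H := lt_of_lt_of_le hXk1 hH1
    exact lt_of_lt_of_le this l1
  have hw1 : 1 ≤ X ^ q := Real.one_le_rpow hX hq.le
  have hlev1 : ∀ i : Fin (n + 1), (i : ℕ) = 1 → lev q X i = X ^ q := by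
    intro i hi
    rw [hi]
    unfold lev
    simp
  have hwr : (X ^ q) ^ (g - k) = r1 := by
    rw [hr1, ← Real.rpow_mul hX0.le]
  -- all levels
  have hgen : ∀ i : Fin (n + 1), |α i - φ i| ≤ K * |χ i| := by
    intro i
    have hxi := (mem_SS hX).1 (hp i).1
    have hyi := (mem_SS hX).1 (hp i).2
    have hli : 1 ≤ lev q X i := one_le_lev hq.le hX _
    rcases lt_trichotomy (p i).1 (p i).2 with h | h | h
    · obtain ⟨-, -, -, -, m5⟩ := hP.low l (lev q X i) (p i).2 (p i).1 hl hli hxi.1 (by exact_mod_cast h) hyi.2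
      have e1 : α i - φ i = -((((p i).2 : ℝ) ^ k - ((p i).1 : ℝ) ^ k) - (F l (p i).2 - F l (p i).1)) := by
        simp only [hα, hφ]
        ring
      rw [e1, abs_neg]
      refine m5.trans ?_
      apply mul_le_mul_of_nonneg_left _ hK0.le
      have := neg_abs_le (χ i)
      simp only [hχ] at this ⊢
      linarith
    · have e1 : α i - φ i = 0 := by
        simp only [hα, hφ, h]
        ring
      rw [e1, abs_zero]
      positivity
    · obtain ⟨-, -, -, -, m5⟩ := hP.low l (lev q X i) (p i).1 (p i).2 hl hli hyi.1 (by exact_mod_cast h) hxi.2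
      refine m5.trans ?_
      exact mul_le_mul_of_nonneg_left (le_abs_self _) hK0.le
  have hlev2 : ∀ i : Fin (n + 1), (i : ℕ) = 1 → φ i < 0 → c * (r1 * -(φ i)) ≤ -(χ i) ∧ |χ i| ≤ K * (r1 * -(φ i)) ∧
      -(φ i) ≤ K * X ^ (q * k) := by
    intro i hi hneg
    have hxi := (mem_SS hX).1 (hp i).1
    have hyi := (mem_SS hX).1 (hp i).2
    rw [hlev1 i hi] at hxi hyi
    have hlt : (p i).1 < (p i).2 := by
      by_contra hge
      push Not at hge
      rcases hge.eq_or_lt with h | h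
      · simp only [hφ, h, sub_self, lt_irrefl] at hneg
      · obtain ⟨m1, -⟩ := hP.low l (X ^ q) (p i).1 (p i).2 hl hw1 hyi.1 (by exact_mod_cast h) hxi.2
        have h5 : (0 : ℝ) < ((p i).1 : ℝ) - (p i).2 := sub_pos.2 (by exact_mod_cast h)
        have h6 : 0 < (X ^ q) ^ ((k : ℝ) - 1) := Real.rpow_pos_of_pos (by linarith) _
        have h7 : 0 < (((p i).1 : ℝ) - (p i).2) * (X ^ q) ^ ((k : ℝ) - 1) := mul_pos h5 h6
        simp only [hφ] at hneg
        linarith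
    obtain ⟨m1, m2, m3, m4, m5⟩ := hP.low l (X ^ q) (p i).2 (p i).1 hl hw1 hxi.1 (by exact_mod_cast hlt) hyi.2
    rw [hwr] at m3 m4
    have e1 : F l (p i).2 - F l (p i).1 = -(φ i) := by
      simp only [hφ]
      ring
    have e2 : G l (p i).2 - G l (p i).1 = -(χ i) := by
      simp only [hχ]
      ring
    rw [e1, e2] at m3 m4
    have hpos : 0 ≤ -(χ i) := by
      refine le_trans ?_ m3
      have : 0 < -(φ i) := by linarith
      positivity
    refine ⟨m3, ?_, ?_⟩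
    · rw [← abs_neg, abs_of_nonneg hpos]
      exact m4
    · obtain ⟨s1, s2, -, -⟩ := hP.siz l (X ^ q) (p i).2 hl hw1 hyi.2
      obtain ⟨s3, -, -, -⟩ := hP.siz l (X ^ q) (p i).1 hl hw1 hxi.2
      rw [← Real.rpow_mul hX0.le] at s2
      rw [← e1]
      linarith
  have hlev3 : ∀ i : Fin (n + 1), 2 ≤ (i : ℕ) → |φ i| ≤ K * X ^ (q ^ 2 * k) ∧ |χ i| ≤ K * X ^ (q ^ 2 * g) := by
    intro i hi
    have hxi := (mem_SS hX).1 (hp i).1
    have hyi := (mem_SS hX).1 (hp i).2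
    have hlu2 : lev q X i ≤ X ^ (q ^ 2) := by
      have : lev q X 2 = X ^ (q ^ 2) := rfl
      rw [← this]
      exact lev_anti hq hq1 hX hi
    have hW1 : 1 ≤ X ^ (q ^ 2) := Real.one_le_rpow hX (by positivity)
    obtain ⟨s1, s2, s3, s4⟩ := hP.siz l (X ^ (q ^ 2)) (p i).1 hl hW1 (by linarith [hxi.2])
    obtain ⟨v1, v2, v3, v4⟩ := hP.siz l (X ^ (q ^ 2)) (p i).2 hl hW1 (by linarith [hyi.2])
    rw [← Real.rpow_mul hX0.le] at s2 v2 s4 v4
    constructor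
    · simp only [hφ]
      rw [abs_le]
      constructor <;> linarith
    · simp only [hχ]
      rw [abs_le]
      constructor <;> linarith
  have hXg : 0 < X ^ (g - k) := Real.rpow_pos_of_pos hX0 _
  have hχ0 : |χ 0| ≤ (K * X ^ (g - k)) * φ 0 := by
    have h5 : 0 ≤ χ 0 := by
      refine le_trans ?_ l3
      positivity
    rw [abs_of_nonneg h5]
    refine l4.trans (le_of_eq ?_)
    simp only [hφ]
    ring
  have hHφ : H ≤ φ 0 := l1
  have key := two_lev (n := n) (m := m) hnm φ χ α (E := K * X ^ (q ^ 2 * k)) (E' := K * X ^ (q ^ 2 * g))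
    (r := K * X ^ (g - k)) (r1 := r1) (c := c) (K := K) (t := m) hr10 hc hK0.le (by positivity) (by positivity) hφ0 hχ0
    (fun i hi hneg => ⟨(hlev2 i hi hneg).1, (hlev2 i hi hneg).2.1⟩) hlev3 hgen (by rw [← hDF]; exact hF)
    (by linarith)
    (by
      refine hG2.trans ?_
      apply mul_le_mul_of_nonneg_left _ (by positivity)
      apply mul_le_mul_of_nonneg_left _ hr10.le
      linarith)
    hG3
    (by
      refine hG4.trans ?_
      apply mul_le_mul_of_nonneg_left _ hr10.le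
      linarith)
  obtain ⟨⟨i1, hi1, hneg, hk1⟩, hk2, hk3⟩ := key
  refine ⟨?_, ?_, ?_⟩
  · rw [hDG]
    refine le_trans ?_ hk2
    apply mul_le_mul_of_nonneg_left _ (by positivity)
    exact mul_le_mul_of_nonneg_left hHφ hr10.le
  · have := (hlev2 i1 hi1 hneg).2.2
    linarith
  · rw [hAP]
    refine hk3.trans ?_
    have hφH : φ 0 ≤ K * H := l2
    calc (1 + K * (c + 2 * K)) * (r1 * φ 0) ≤ (1 + K * (c + 2 * K)) * (r1 * (K * H)) := by
          apply mul_le_mul_of_nonneg_left _ (by positivity)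
          exact mul_le_mul_of_nonneg_left hφH hr10.le
      _ = _ := by
        rw [hH]
        ring

/-- **the hypothesis of the mean value theorem** -/
theorem Lev_PF {q g a b c K : ℝ} {k m : ℕ} (hk : 2 ≤ k) (hq : 0 < q) (hq1 : q < 1)
    (hg0 : 0 ≤ g) (hc : 0 < c) (hK : 1 ≤ K) {F G : ℝ → ℝ → ℝ} (hP : PF k g a b c K F G) :
    Lev q k m ((k : ℝ) - 1 + q * (g - k)) ((k : ℝ) - 1 + q * (g - k)) (16 * m / c) (2 * K) ((1 + K * (c + 2 * K)) * K)
      (GD q g c K k m) (vx F a b m) := by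
  have hK0 : 0 < K := by linarith
  intro n X p hnm hX hG hp h1
  have hX0 : 0 < X := by linarith
  rw [mem_PPs] at hp
  have hXw : X ^ ((k : ℝ) - 1 + q * (g - k)) = X ^ (q * (g - k)) * X ^ ((k : ℝ) - 1) := by
    rw [← Real.rpow_add hX0]
    congr 1
    ring
  rw [hXw]
  have main : ∀ p : Fin (n + 1) → ℕ × ℕ, (∀ i : Fin (n + 1), (p i).1 ∈ SS q X i ∧ (p i).2 ∈ SS q X i) →
      (p 0).2 < (p 0).1 →
      vx F a b m (n + 1) p ≤ 16 * m / c / (|((p 0).1 : ℝ) - (p 0).2| * (X ^ (q * (g - k)) * X ^ ((k : ℝ) - 1))) ∧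
      (vx F a b m (n + 1) p ≠ 0 → |((p 0).1 : ℝ) - (p 0).2| * X ^ ((k : ℝ) - 1) ≤ 2 * K * X ^ (q * k) ∧
        |AP k p| ≤ ((1 + K * (c + 2 * K)) * K) *
          (|((p 0).1 : ℝ) - (p 0).2| * (X ^ (q * (g - k)) * X ^ ((k : ℝ) - 1)))) := by
    intro p hp h1
    have hlt : ((p 0).2 : ℝ) < (p 0).1 := by exact_mod_cast h1
    have hh : 0 < ((p 0).1 : ℝ) - (p 0).2 := by linarith
    have hP1 : 0 < X ^ (q * (g - k)) := Real.rpow_pos_of_pos hX0 _
    have hP2 : 0 < X ^ ((k : ℝ) - 1) := Real.rpow_pos_of_pos hX0 _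
    set D : ℝ := c / 8 * (X ^ (q * (g - k)) * ((((p 0).1 : ℝ) - (p 0).2) * X ^ ((k : ℝ) - 1))) with hD
    have hD0 : 0 < D := by positivity
    rw [abs_of_pos hh]
    constructor
    · have e2 : 16 * m / c / ((((p 0).1 : ℝ) - (p 0).2) * (X ^ (q * (g - k)) * X ^ ((k : ℝ) - 1))) = 2 * m / D := by
        rw [hD]
        field_simp
        ring
      rw [e2]
      apply vx_le_of (by positivity)
      unfold EX
      have e0 : {l | l ∈ Icc a b ∧ |DR (F l) p| ≤ m} = {l | l ∈ Icc a b ∧ |-(DR (F l) p)| ≤ m} := by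
        ext l
        simp
      rw [e0]
      refine sub_vol (F := fun l => -(DR (F l) p)) (F' := fun l => -(DR (G l) p)) (fun x hx => ?_) hD0
        fun x hx hx2 => by
          rw [abs_neg] at hx2
          exact (lev_PF hq hq1 hX hc hK hP hx hnm p hp h1 hG hx2).1
      apply HasDerivAt.neg
      unfold DR
      apply HasDerivAt.fun_sum
      intro i _
      exact (hP.der _ x hx).sub (hP.der _ x hx)
    · intro hne
      have hnonempty : (EX F a b m p).Nonempty := by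
        by_contra hemp
        rw [Set.not_nonempty_iff_eq_empty] at hemp
        apply hne
        unfold vx
        rw [hemp]
        simp
      obtain ⟨l, hl1, hl2⟩ := hnonempty
      have h3 := lev_PF hq hq1 hX hc hK hP hl1 hnm p hp h1 hG hl2
      exact ⟨h3.2.1, h3.2.2⟩
  rcases lt_or_gt_of_ne h1 with h2 | h2
  · have h3 := main (fun i => (p i).swap) (fun i => ⟨(hp i).2, (hp i).1⟩) h2
    simp only [vx_swap, AP_swap, abs_neg, Prod.fst_swap, Prod.snd_swap] at h3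
    rw [abs_sub_comm] at h3
    exact h3
  · exact main p hp h2

end Pool.Agent.J4H7.WS
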