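import Pool.Agent.J4H7.WS.C
import Pool.Agent.J4H7.WS.R2
import Pool.Agent.J4H7.WR.G0

set_option autoImplicit false

/-!
# Waring's problem with one generic parameter, part J (helper7)

The functions `(z + l) ^ k`.
-/

namespace Pool.Agent.J4H7.WS

open Real Set MeasureTheory Filter Topology
open Pool.Agent.J4H7.WE
open Pool.Agent.J4H7.WP
open Pool.Agent.J4H7.WR

/-- `(z + l) ^ k` -/
def fJ (k : ℕ) (l z : ℝ) : ℝ := (z + l) ^ k

/-- differences of powers increase under a shift -/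
lemma shift_mono (n : ℕ) {x y s l : ℝ} (hy : 0 ≤ y) (hxy : y ≤ x) (hs : 0 ≤ s) (hsl : s ≤ l) :
    0 ≤ (x + s) ^ n - (y + s) ^ n ∧ (x + s) ^ n - (y + s) ^ n ≤ (x + l) ^ n - (y + l) ^ n := by
  induction n with
  | zero => simp
  | succ n ih =>
    obtain ⟨h1, h2⟩ := ih
    have e : ∀ r : ℝ, (x + r) ^ (n + 1) - (y + r) ^ (n + 1) = (x + r) * ((x + r) ^ n - (y + r) ^ n) + (x - y) * (y + r) ^ n := by
      intro r
      ring
    have h3 : 0 ≤ (y + s) ^ n := pow_nonneg (by linarith) n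
    have h4 : (y + s) ^ n ≤ (y + l) ^ n := pow_le_pow_left₀ (by linarith) (by linarith) n
    rw [e, e]
    constructor
    · exact add_nonneg (mul_nonneg (by linarith) h1) (mul_nonneg (by linarith) h3)
    · apply add_le_add
      · exact mul_le_mul (by linarith) h2 h1 (by linarith)
      · exact mul_le_mul_of_nonneg_left h4 (by linarith)

/-- the difference of powers changes by at most its derivative -/
lemma shift_diff {k : ℕ} {x y l : ℝ} (hy : 0 ≤ y) (hxy : y ≤ x) (hl : 0 ≤ l) :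
    0 ≤ ((x + l) ^ k - (y + l) ^ k) - (x ^ k - y ^ k) ∧
    ((x + l) ^ k - (y + l) ^ k) - (x ^ k - y ^ k) ≤ l * (k * (x + l) ^ (k - 1) - k * (y + l) ^ (k - 1)) := by
  rcases hl.eq_or_lt with h | h
  · rw [← h]
    simp
  · have hd : ∀ s : ℝ, HasDerivAt (fun s : ℝ => (x + s) ^ k - (y + s) ^ k) (k * (x + s) ^ (k - 1) - k * (y + s) ^ (k - 1)) s := by
      intro s
      have h1 : HasDerivAt (fun s : ℝ => (x + s) ^ k) (k * (x + s) ^ (k - 1) * 1) s := ((hasDerivAt_id s).const_add x).fun_pow k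
      have h2 : HasDerivAt (fun s : ℝ => (y + s) ^ k) (k * (y + s) ^ (k - 1) * 1) s := ((hasDerivAt_id s).const_add y).fun_pow k
      rw [mul_one] at h1 h2
      exact h1.sub h2
    obtain ⟨ξ, hξ, h2⟩ := exists_hasDerivAt_eq_slope (fun s : ℝ => (x + s) ^ k - (y + s) ^ k) _ h
      (fun s _ => (hd s).continuousAt.continuousWithinAt) (fun s _ => hd s)
    rw [eq_div_iff (by linarith)] at h2
    simp only [add_zero, sub_zero] at h2
    rw [← h2]
    obtain ⟨m1, m2⟩ := shift_mono (k - 1) hy hxy hξ.1.le hξ.2.le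
    have hk0 : (0 : ℝ) ≤ k := Nat.cast_nonneg k
    constructor
    · rw [← mul_sub]
      positivity
    · rw [mul_comm]
      apply mul_le_mul_of_nonneg_left _ hl
      rw [← mul_sub, ← mul_sub]
      exact mul_le_mul_of_nonneg_left m2 hk0

/-- the family -/
lemma PF_J {k : ℕ} (hk : 3 ≤ k) :
    PF k ((k : ℝ) - 1) 0 1 (1 / 2 ^ k) (k * 3 ^ k) (fJ k) (fun l z => k * (z + l) ^ (k - 1)) := by
  have hk' : (3 : ℝ) ≤ k := by exact_mod_cast hk
  have h3k : (3 : ℝ) ^ k = 3 * 3 ^ (k - 1) := by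
    rw [← pow_succ']
    congr 1
    omega
  have h3k1 : (1 : ℝ) ≤ 3 ^ (k - 1) := one_le_pow₀ (by norm_num)
  have h3k1' : (3 : ℝ) ^ (k - 1) ≤ 3 ^ k := by rw [h3k]; linarith
  have hkc : ((k - 1 : ℕ) : ℝ) = (k : ℝ) - 1 := by rw [Nat.cast_sub (by omega)]; simp
  have hKge : (3 : ℝ) ^ k ≤ k * 3 ^ k := by
    have : (0 : ℝ) < 3 ^ k := by positivity
    nlinarith
  refine ⟨?_, ?_, ?_⟩
  · intro z l _
    unfold fJ
    have h1 : HasDerivAt (fun s : ℝ => ((z : ℝ) + s) ^ k) (k * ((z : ℝ) + l) ^ (k - 1) * 1) l :=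
      ((hasDerivAt_id l).const_add (z : ℝ)).fun_pow k
    rw [mul_one] at h1
    exact h1
  · intro l W x hl hW hx
    have hl0 : 0 ≤ l := hl.1
    have hl1 : l ≤ 1 := hl.2
    have hx0 : (0 : ℝ) ≤ x := by positivity
    have hxl : (x : ℝ) + l ≤ 3 * W := by linarith
    have hxl0 : 0 ≤ (x : ℝ) + l := by linarith
    unfold fJ
    refine ⟨by positivity, ?_, by positivity, ?_⟩
    · rw [Real.rpow_natCast]
      calc ((x : ℝ) + l) ^ k ≤ (3 * W) ^ k := pow_le_pow_left₀ hxl0 hxl k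
        _ = 3 ^ k * W ^ k := mul_pow _ _ _
        _ ≤ _ := mul_le_mul_of_nonneg_right hKge (by positivity)
    · rw [← hkc, Real.rpow_natCast]
      calc (k : ℝ) * ((x : ℝ) + l) ^ (k - 1) ≤ k * (3 * W) ^ (k - 1) := by
            apply mul_le_mul_of_nonneg_left _ (by linarith)
            exact pow_le_pow_left₀ hxl0 hxl _
        _ = k * 3 ^ (k - 1) * W ^ (k - 1) := by rw [mul_pow]; ring
        _ ≤ _ := by
          apply mul_le_mul_of_nonneg_right _ (by positivity)
          exact mul_le_mul_of_nonneg_left h3k1' (by linarith)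
  · intro l W x y hl hW hy hyx hx
    have hl0 : 0 ≤ l := hl.1
    have hl1 : l ≤ 1 := hl.2
    have hW0 : 0 < W := by linarith
    have hy0 : (0 : ℝ) < y := by linarith
    unfold fJ
    set x' : ℝ := (x : ℝ) + l with hx'
    set y' : ℝ := (y : ℝ) + l with hy'
    have hxy' : y' ≤ x' := by rw [hx', hy']; linarith
    have hWy' : W ≤ y' := by rw [hy']; linarith
    have hy'0 : 0 < y' := by linarith
    have hd : x' - y' = (x : ℝ) - y := by rw [hx', hy']; ring
    have hH : 0 < ((x : ℝ) - y) * W ^ ((k : ℝ) - 1) := mul_pos (by linarith) (Real.rpow_pos_of_pos hW0 _)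
    have a1 : ((x : ℝ) - y) * W ^ ((k : ℝ) - 1) ≤ x' ^ k - y' ^ k := by
      have := pow_diff (θ := (k : ℝ)) (Y := W) (x := x') (y := y') (by linarith) hW0 hWy' hxy'
      rw [Real.rpow_natCast, Real.rpow_natCast, hd] at this
      exact this
    have a2 : x' ^ k - y' ^ k ≤ (k * 3 ^ k) * (((x : ℝ) - y) * W ^ ((k : ℝ) - 1)) := by
      have h2 := bern (θ := (k : ℝ)) (by linarith) hy'0 hxy'
      rw [Real.rpow_natCast, Real.rpow_natCast, hd] at h2
      have h3 : x' ^ ((k : ℝ) - 1) ≤ 3 ^ k * W ^ ((k : ℝ) - 1) := by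
        calc x' ^ ((k : ℝ) - 1) ≤ (3 * W) ^ ((k : ℝ) - 1) :=
              Real.rpow_le_rpow (by linarith) (by rw [hx']; linarith) (by linarith)
          _ = 3 ^ ((k : ℝ) - 1) * W ^ ((k : ℝ) - 1) := Real.mul_rpow (by norm_num) hW0.le
          _ ≤ _ := by
            apply mul_le_mul_of_nonneg_right _ (Real.rpow_nonneg hW0.le _)
            rw [← Real.rpow_natCast 3 k]
            exact Real.rpow_le_rpow_of_exponent_le (by norm_num) (by linarith)
      calc x' ^ k - y' ^ k ≤ k * x' ^ ((k : ℝ) - 1) * ((x : ℝ) - y) := h2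
        _ ≤ k * (3 ^ k * W ^ ((k : ℝ) - 1)) * ((x : ℝ) - y) := by
          apply mul_le_mul_of_nonneg_right _ (by linarith)
          exact mul_le_mul_of_nonneg_left h3 (by linarith)
        _ = _ := by ring
    set A : ℝ := x' ^ k - y' ^ k with hA
    have hA0 : 0 < A := by linarith
    have hgk : (k : ℝ) - 1 - k = -1 := by ring
    have hWi : 0 < W ^ (((k : ℝ) - 1) - k) := Real.rpow_pos_of_pos hW0 _
    have eG : (k : ℝ) * x' ^ (k - 1) - k * y' ^ (k - 1) = k * (x' ^ ((k : ℝ) - 1) - y' ^ ((k : ℝ) - 1)) := by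
      rw [← hkc, Real.rpow_natCast, Real.rpow_natCast]
      ring
    have a3 : x' ^ ((k : ℝ) - 1) - y' ^ ((k : ℝ) - 1) ≤ A * W ^ (((k : ℝ) - 1) - k) :=
      cmp_upper (by linarith) (by linarith) hW0 hWy' hxy'
    have a4 : A * ((W + l) ^ (((k : ℝ) - 1) - k) / (k * 2 ^ (k - 1))) ≤ x' ^ ((k : ℝ) - 1) - y' ^ ((k : ℝ) - 1) :=
      cmp_lower (by omega) (by linarith) (by linarith) (by rw [hy']; linarith) hxy' (by rw [hx']; linarith)
    have a5 : 1 / 2 * W ^ (((k : ℝ) - 1) - k) ≤ (W + l) ^ (((k : ℝ) - 1) - k) := by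
      rw [hgk, Real.rpow_neg_one, Real.rpow_neg_one, one_div, ← mul_inv]
      apply inv_anti₀ (by linarith)
      linarith
    have hGn : 0 ≤ x' ^ ((k : ℝ) - 1) - y' ^ ((k : ℝ) - 1) :=
      sub_nonneg.2 (Real.rpow_le_rpow hy'0.le hxy' (by linarith))
    refine ⟨a1, a2, ?_, ?_, ?_⟩
    · rw [eG]
      have hkp : (0 : ℝ) < k := by linarith
      calc 1 / 2 ^ k * (W ^ (((k : ℝ) - 1) - k) * A) = k * (A * ((1 / 2 * W ^ (((k : ℝ) - 1) - k)) / (k * 2 ^ (k - 1)))) := by
            have h2k : (2 : ℝ) ^ k = 2 * 2 ^ (k - 1) := by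
              rw [← pow_succ']
              congr 1
              omega
            rw [h2k]
            field_simp
        _ ≤ k * (A * ((W + l) ^ (((k : ℝ) - 1) - k) / (k * 2 ^ (k - 1)))) := by
            apply mul_le_mul_of_nonneg_left _ hkp.le
            apply mul_le_mul_of_nonneg_left _ hA0.le
            apply div_le_div_of_nonneg_right a5 (by positivity)
        _ ≤ _ := mul_le_mul_of_nonneg_left a4 hkp.le
    · rw [eG]
      calc (k : ℝ) * (x' ^ ((k : ℝ) - 1) - y' ^ ((k : ℝ) - 1)) ≤ k * (A * W ^ (((k : ℝ) - 1) - k)) :=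
            mul_le_mul_of_nonneg_left a3 (by linarith)
        _ = k * 1 * (W ^ (((k : ℝ) - 1) - k) * A) := by ring
        _ ≤ _ := by
          apply mul_le_mul_of_nonneg_right _ (by positivity)
          apply mul_le_mul_of_nonneg_left _ (by linarith)
          linarith
    · obtain ⟨s1, s2⟩ := shift_diff (k := k) hy0.le hyx.le hl0
      rw [← hx', ← hy', ← hA] at s1
      rw [← hx', ← hy', ← hA] at s2
      rw [abs_sub_comm, abs_of_nonneg s1]
      refine s2.trans ?_
      apply mul_le_mul_of_nonneg_right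
      · linarith
      · rw [eG]
        exact mul_nonneg (by linarith) hGn

/-- the function -/
lemma Fn_J {k : ℕ} (hk : 2 ≤ k) {l : ℝ} (hl : 0 ≤ l) (hl1 : l ≤ 1) : Fn k (fJ k l) := by
  have hk' : (2 : ℝ) ≤ k := by exact_mod_cast hk
  refine ⟨?_, ?_, ?_, ?_, ?_, ?_, ?_⟩
  · intro z hz
    unfold fJ
    positivity
  · intro a b ha hab
    unfold fJ
    exact pow_le_pow_left₀ (by linarith) (by linarith) k
  · intro z hz
    unfold fJ
    fun_prop
  · intro z hz
    unfold fJ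
    exact pow_le_pow_left₀ hz.le (by linarith) k
  · have h1 : Tendsto (fun z : ℝ => (1 + l / z) ^ k) atTop (𝓝 ((1 + 0) ^ k)) :=
      (tendsto_const_nhds.add (tendsto_const_nhds.div_atTop tendsto_id)).pow k
    rw [add_zero, one_pow] at h1
    filter_upwards [h1.eventually_le_const (by norm_num : (1 : ℝ) < 2), eventually_gt_atTop 0] with z hz hz0
    unfold fJ
    have e1 : z + l = (1 + l / z) * z := by field_simp
    rw [e1, mul_pow]
    exact mul_le_mul_of_nonneg_right hz (by positivity)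
  · refine ⟨2 ^ k, one_le_pow₀ (by norm_num), fun z hz => ?_⟩
    unfold fJ
    rw [← mul_pow]
    exact pow_le_pow_left₀ (by linarith) (by linarith) k
  · refine ⟨k * 2 ^ k, ?_, fun u v hu huv => ?_⟩
    · have : (1 : ℝ) ≤ 2 ^ k := one_le_pow₀ (by norm_num)
      nlinarith
    · unfold fJ
      have h1 := bern (θ := (k : ℝ)) (by linarith) (show 0 < u + l by linarith) (show u + l ≤ v + l by linarith)
      rw [Real.rpow_natCast, Real.rpow_natCast] at h1
      have h2 : (v + l) ^ ((k : ℝ) - 1) ≤ 2 ^ k * v ^ ((k : ℝ) - 1) := by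
        calc (v + l) ^ ((k : ℝ) - 1) ≤ (2 * v) ^ ((k : ℝ) - 1) := Real.rpow_le_rpow (by linarith) (by linarith) (by linarith)
          _ = 2 ^ ((k : ℝ) - 1) * v ^ ((k : ℝ) - 1) := Real.mul_rpow (by norm_num) (by linarith)
          _ ≤ _ := by
            apply mul_le_mul_of_nonneg_right _ (Real.rpow_nonneg (by linarith) _)
            rw [← Real.rpow_natCast 2 k]
            exact Real.rpow_le_rpow_of_exponent_le (by norm_num) (by linarith)
      calc (v + l) ^ k - (u + l) ^ k ≤ k * (v + l) ^ ((k : ℝ) - 1) * (v + l - (u + l)) := h1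
        _ = k * (v + l) ^ ((k : ℝ) - 1) * (v - u) := by ring
        _ ≤ k * (2 ^ k * v ^ ((k : ℝ) - 1)) * (v - u) := by
          apply mul_le_mul_of_nonneg_right _ (by linarith)
          exact mul_le_mul_of_nonneg_left h2 (by linarith)
        _ = _ := by ring

/-- the derivatives -/
noncomputable def dJ (k : ℕ) (l : ℝ) (i : ℕ) (z : ℝ) : ℝ := ff k i * (z + l) ^ ((k : ℝ) - i)

lemma dJ_zero (k : ℕ) (l : ℝ) : dJ k l 0 = fJ k l := by
  funext z
  unfold dJ ff fJ
  simp

lemma Fam_J {k : ℕ} {l : ℝ} (hl : 0 ≤ l) : Fam k (dJ k l) := by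
  refine ⟨?_, ?_, ?_⟩
  · intro i z hz
    have h1 := pow_deriv (k : ℝ) i (z := z + l) (by linarith)
    have h2 := h1.comp z ((hasDerivAt_id z).add_const l)
    rw [mul_one] at h2
    exact h2
  · intro j hj
    have hp := ff_kpos hj
    have h1 : Tendsto (fun z : ℝ => (1 + l / z) ^ ((k : ℝ) - j)) atTop (𝓝 ((1 + 0) ^ ((k : ℝ) - j))) := by
      apply Tendsto.rpow_const
      · exact tendsto_const_nhds.add (tendsto_const_nhds.div_atTop tendsto_id)
      · left
        norm_num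
    rw [add_zero, Real.one_rpow] at h1
    have h2 : ∀ᶠ z : ℝ in atTop, |(1 + l / z) ^ ((k : ℝ) - j) - 1| < 1 / 2 := by
      have := h1.eventually (Metric.ball_mem_nhds (1 : ℝ) (by norm_num : (0 : ℝ) < 1 / 2))
      filter_upwards [this] with z hz
      rwa [Real.dist_eq] at hz
    filter_upwards [h2, eventually_gt_atTop 0] with z hz hz0
    have e1 : z + l = (1 + l / z) * z := by field_simp
    have e2 : (z + l) ^ ((k : ℝ) - j) = (1 + l / z) ^ ((k : ℝ) - j) * z ^ ((k : ℝ) - j) := by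
      rw [e1, Real.mul_rpow (by positivity) hz0.le]
    have e3 : dJ k l j z - ff (k : ℝ) j * z ^ ((k : ℝ) - j) =
        ((1 + l / z) ^ ((k : ℝ) - j) - 1) * (ff (k : ℝ) j * z ^ ((k : ℝ) - j)) := by
      unfold dJ
      rw [e2]
      ring
    have h4 : 0 < ff (k : ℝ) j * z ^ ((k : ℝ) - j) := mul_pos hp (Real.rpow_pos_of_pos hz0 _)
    rw [e3, abs_mul, abs_of_pos h4]
    exact mul_le_mul_of_nonneg_right hz.le h4.le
  · left
    refine Eventually.of_forall fun z => ?_
    unfold dJ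
    rw [ff_nat_zero (Nat.lt_succ_self _), zero_mul]

end Pool.Agent.J4H7.WS
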