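import Pool.Agent.J4H7.WS.C
import Pool.Agent.J4H7.WS.R2
import Pool.Agent.J4H7.WR.G0

set_option autoImplicit false

/-!
# Waring's problem with one generic parameter, part L (helper7)

The functions `z ^ k + l * z ^ g`.
-/

namespace Pool.Agent.J4H7.WS

open Real Set MeasureTheory Filter Topology
open Pool.Agent.J4H7.WE
open Pool.Agent.J4H7.WP
open Pool.Agent.J4H7.WR

/-- `z ^ k + l * z ^ g` -/
noncomputable def fL (k : ℕ) (g l z : ℝ) : ℝ := z ^ k + l * z ^ g

lemma pow_up {k : ℕ} (hk : 2 ≤ k) {W x y : ℝ} (hW : 0 < W) (hy : W ≤ y) (hxy : y ≤ x) (hx : x ≤ 2 * W) :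
    x ^ k - y ^ k ≤ (k * 2 ^ (k - 1)) * ((x - y) * W ^ ((k : ℝ) - 1)) := by
  have hk' : (2 : ℝ) ≤ k := by exact_mod_cast hk
  have hy0 : 0 < y := by linarith
  have h2 := bern (θ := (k : ℝ)) (by linarith) hy0 hxy
  rw [Real.rpow_natCast, Real.rpow_natCast] at h2
  have h3 : x ^ ((k : ℝ) - 1) ≤ 2 ^ (k - 1) * W ^ ((k : ℝ) - 1) := by
    calc x ^ ((k : ℝ) - 1) ≤ (2 * W) ^ ((k : ℝ) - 1) := Real.rpow_le_rpow (by linarith) hx (by linarith)
      _ = 2 ^ ((k : ℝ) - 1) * W ^ ((k : ℝ) - 1) := Real.mul_rpow (by norm_num) hW.le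
      _ = _ := by
        congr 1
        rw [← Real.rpow_natCast 2 (k - 1), Nat.cast_sub (by omega)]
        simp
  calc x ^ k - y ^ k ≤ k * x ^ ((k : ℝ) - 1) * (x - y) := h2
    _ ≤ k * (2 ^ (k - 1) * W ^ ((k : ℝ) - 1)) * (x - y) := by
      apply mul_le_mul_of_nonneg_right _ (by linarith)
      exact mul_le_mul_of_nonneg_left h3 (by linarith)
    _ = _ := by ring

/-- the family -/
lemma PF_L {k : ℕ} (hk : 2 ≤ k) {g a b : ℝ} (hg1 : 1 < g) (hg2 : g < k) (ha : 0 ≤ a) (hab : a ≤ b) :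
    PF k g a b (1 / ((1 + b) * (k * 2 ^ (k - 1)))) ((1 + b) * (k * 2 ^ k)) (fL k g) (fun _ z => z ^ g) := by
  have hk' : (2 : ℝ) ≤ k := by exact_mod_cast hk
  have hb : 0 ≤ b := ha.trans hab
  have h2k : (2 : ℝ) ^ k = 2 * 2 ^ (k - 1) := by
    rw [← pow_succ']
    congr 1
    omega
  have h2k1 : (1 : ℝ) ≤ 2 ^ (k - 1) := one_le_pow₀ (by norm_num)
  have hkk : (2 : ℝ) ≤ k * 2 ^ (k - 1) := by nlinarith
  have h2kk : (2 : ℝ) ^ k ≤ k * 2 ^ k := by
    have : (0 : ℝ) < 2 ^ k := by positivity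
    nlinarith
  have hK1 : k * 2 ^ (k - 1) ≤ (k : ℝ) * 2 ^ k := by
    rw [h2k]
    nlinarith
  refine ⟨?_, ?_, ?_⟩
  · intro z l _
    have h1 : HasDerivAt (fun l : ℝ => l * (z : ℝ) ^ g) (1 * (z : ℝ) ^ g) l := (hasDerivAt_id l).mul_const _
    rw [one_mul] at h1
    exact h1.const_add _
  · intro l W x hl hW hx
    have hl0 : 0 ≤ l := ha.trans hl.1
    have hx0 : (0 : ℝ) ≤ x := by positivity
    have hxg : 0 ≤ (x : ℝ) ^ g := Real.rpow_nonneg hx0 _
    have hxg' : (x : ℝ) ^ g ≤ (2 * W) ^ g := Real.rpow_le_rpow hx0 hx (by linarith)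
    have hW2 : (2 * W) ^ g ≤ (2 * W) ^ (k : ℝ) := Real.rpow_le_rpow_of_exponent_le (by linarith) hg2.le
    have e1 : (2 * W) ^ (k : ℝ) = 2 ^ k * W ^ (k : ℝ) := by
      rw [Real.mul_rpow (by norm_num) (by linarith), Real.rpow_natCast 2]
    have e2 : (2 * W) ^ g = 2 ^ g * W ^ g := Real.mul_rpow (by norm_num) (by linarith)
    have hxk : (x : ℝ) ^ k ≤ (2 * W) ^ (k : ℝ) := by
      rw [Real.rpow_natCast]
      exact pow_le_pow_left₀ hx0 hx k
    have hWk : 0 < W ^ (k : ℝ) := Real.rpow_pos_of_pos (by linarith) _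
    have hWg : 0 < W ^ g := Real.rpow_pos_of_pos (by linarith) _
    have h2g : (2 : ℝ) ^ g ≤ 2 ^ k := by
      rw [← Real.rpow_natCast 2 k]
      exact Real.rpow_le_rpow_of_exponent_le (by norm_num) hg2.le
    refine ⟨?_, ?_, hxg, ?_⟩
    · unfold fL
      positivity
    · unfold fL
      have h5 : l * (x : ℝ) ^ g ≤ b * (2 ^ k * W ^ (k : ℝ)) := by
        apply mul_le_mul hl.2 _ hxg hb
        rw [← e1]
        exact hxg'.trans hW2
      rw [e1] at hxk
      calc (x : ℝ) ^ k + l * (x : ℝ) ^ g ≤ 2 ^ k * W ^ (k : ℝ) + b * (2 ^ k * W ^ (k : ℝ)) := add_le_add hxk h5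
        _ = (1 + b) * 2 ^ k * W ^ (k : ℝ) := by ring
        _ ≤ _ := by
          apply mul_le_mul_of_nonneg_right _ hWk.le
          apply mul_le_mul_of_nonneg_left h2kk (by linarith)
    · calc (x : ℝ) ^ g ≤ 2 ^ g * W ^ g := by rw [← e2]; exact hxg'
        _ ≤ ((1 + b) * (k * 2 ^ k)) * W ^ g := by
          apply mul_le_mul_of_nonneg_right _ hWg.le
          have : (0 : ℝ) ≤ k * 2 ^ k := by positivity
          nlinarith
  · intro l W x y hl hW hy hyx hx
    have hl0 : 0 ≤ l := ha.trans hl.1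
    have hW0 : 0 < W := by linarith
    have hy0 : (0 : ℝ) < y := by linarith
    set A : ℝ := (x : ℝ) ^ k - (y : ℝ) ^ k with hA
    set Bq : ℝ := (x : ℝ) ^ g - (y : ℝ) ^ g with hBq
    have eF : fL k g l x - fL k g l y = A + l * Bq := by
      unfold fL
      rw [hA, hBq]
      ring
    rw [eF]
    have a1 : ((x : ℝ) - y) * W ^ ((k : ℝ) - 1) ≤ A := by
      have := pow_diff (θ := (k : ℝ)) (Y := W) (x := (x : ℝ)) (y := (y : ℝ)) (by linarith) hW0 hy hyx.le
      rw [Real.rpow_natCast, Real.rpow_natCast] at this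
      exact this
    have a2 := pow_up hk hW0 hy hyx.le hx
    rw [← hA] at a2
    have hBn : 0 ≤ Bq := sub_nonneg.2 (Real.rpow_le_rpow hy0.le hyx.le (by linarith))
    have a3 : Bq ≤ A * W ^ (g - k) := cmp_upper (by linarith) hg2.le hW0 hy hyx.le
    have a4 : A * (W ^ (g - k) / (k * 2 ^ (k - 1))) ≤ Bq := cmp_lower (by omega) hg1.le hW0 hy hyx.le hx
    have hWg : 0 < W ^ (g - k) := Real.rpow_pos_of_pos hW0 _
    have hWg1 : W ^ (g - k) ≤ 1 := Real.rpow_le_one_of_one_le_of_nonpos hW (by linarith)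
    have hH : 0 < ((x : ℝ) - y) * W ^ ((k : ℝ) - 1) := mul_pos (by linarith) (Real.rpow_pos_of_pos hW0 _)
    have hA0 : 0 < A := by linarith
    have a5 : Bq ≤ A := a3.trans (by nlinarith)
    have hlB : 0 ≤ l * Bq := mul_nonneg hl0 hBn
    have hlB2 : l * Bq ≤ b * A := mul_le_mul hl.2 a5 hBn hb
    have hFA : A + l * Bq ≤ (1 + b) * A := by linarith
    refine ⟨by linarith, ?_, ?_, ?_, ?_⟩
    · calc A + l * Bq ≤ (1 + b) * A := hFA
        _ ≤ (1 + b) * ((k * 2 ^ (k - 1)) * (((x : ℝ) - y) * W ^ ((k : ℝ) - 1))) :=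
            mul_le_mul_of_nonneg_left a2 (by linarith)
        _ ≤ (1 + b) * ((k * 2 ^ k) * (((x : ℝ) - y) * W ^ ((k : ℝ) - 1))) := by
            apply mul_le_mul_of_nonneg_left _ (by linarith)
            exact mul_le_mul_of_nonneg_right hK1 hH.le
        _ = _ := by ring
    · have h1b : 0 < 1 + b := by linarith
      have hkp : (0 : ℝ) < k * 2 ^ (k - 1) := by linarith
      calc 1 / ((1 + b) * (k * 2 ^ (k - 1))) * (W ^ (g - k) * (A + l * Bq))
          ≤ 1 / ((1 + b) * (k * 2 ^ (k - 1))) * (W ^ (g - k) * ((1 + b) * A)) := by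
            apply mul_le_mul_of_nonneg_left _ (by positivity)
            exact mul_le_mul_of_nonneg_left hFA hWg.le
        _ = A * (W ^ (g - k) / (k * 2 ^ (k - 1))) := by field_simp
        _ ≤ Bq := a4
    · have hK0 : (1 : ℝ) ≤ (1 + b) * (k * 2 ^ k) := by
        have : (1 : ℝ) ≤ k * 2 ^ k := by linarith
        nlinarith
      calc Bq ≤ A * W ^ (g - k) := a3
        _ ≤ 1 * (W ^ (g - k) * (A + l * Bq)) := by
          rw [one_mul, mul_comm]
          apply mul_le_mul_of_nonneg_left _ hWg.le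
          linarith
        _ ≤ _ := by
          apply mul_le_mul_of_nonneg_right hK0
          apply mul_nonneg hWg.le
          linarith
    · have e1 : A - (A + l * Bq) = -(l * Bq) := by ring
      rw [e1, abs_neg, abs_of_nonneg hlB]
      apply mul_le_mul_of_nonneg_right _ hBn
      have : (1 : ℝ) ≤ k * 2 ^ k := by linarith
      have := hl.2
      nlinarith

/-- the function -/
lemma Fn_L {k : ℕ} (hk : 2 ≤ k) {g l : ℝ} (hg1 : 1 < g) (hg2 : g < k) (hl : 0 < l) : Fn k (fL k g l) := by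
  have hk' : (2 : ℝ) ≤ k := by exact_mod_cast hk
  have hgk : ∀ z : ℝ, 1 ≤ z → z ^ g ≤ z ^ k := by
    intro z hz
    rw [← Real.rpow_natCast]
    exact Real.rpow_le_rpow_of_exponent_le hz hg2.le
  refine ⟨?_, ?_, ?_, ?_, ?_, ?_, ?_⟩
  · intro z hz
    unfold fL
    have := Real.rpow_nonneg hz g
    positivity
  · intro a b ha hab
    unfold fL
    apply add_le_add (pow_le_pow_left₀ ha.le hab k)
    exact mul_le_mul_of_nonneg_left (Real.rpow_le_rpow ha.le hab (by linarith)) hl.le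
  · intro z hz
    unfold fL
    exact (continuousAt_id.pow k).add (continuousAt_const.mul (Real.continuousAt_rpow_const z g (Or.inl hz.ne')))
  · intro z hz
    unfold fL
    have := Real.rpow_nonneg hz.le g
    nlinarith
  · have h1 : ∀ᶠ z : ℝ in atTop, l ≤ z ^ ((k : ℝ) - g) := (tendsto_rpow_atTop (by linarith)).eventually_ge_atTop _
    filter_upwards [h1, eventually_gt_atTop 0] with z hz hz0
    unfold fL
    have h2 : z ^ k = z ^ ((k : ℝ) - g) * z ^ g := by
      rw [← Real.rpow_add hz0, ← Real.rpow_natCast]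
      congr 1
      ring
    have h3 : l * z ^ g ≤ z ^ k := by
      rw [h2]
      exact mul_le_mul_of_nonneg_right hz (Real.rpow_nonneg hz0.le _)
    linarith
  · refine ⟨1 + l, by linarith, fun z hz => ?_⟩
    unfold fL
    have h1 := mul_le_mul_of_nonneg_left (hgk z hz) hl.le
    linarith
  · refine ⟨(1 + l) * k, by nlinarith, fun u v hu huv => ?_⟩
    have hu0 : 0 < u := by linarith
    have hv0 : 0 < v := by linarith
    have h1 := bern (θ := (k : ℝ)) (by linarith) hu0 huv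
    have h1' := bern (θ := g) hg1.le hu0 huv
    rw [Real.rpow_natCast, Real.rpow_natCast] at h1
    have h2' : v ^ (g - 1) ≤ v ^ ((k : ℝ) - 1) := Real.rpow_le_rpow_of_exponent_le (by linarith) (by linarith)
    have h2'' : 0 ≤ v ^ (g - 1) := Real.rpow_nonneg hv0.le _
    have h3 : v ^ g - u ^ g ≤ k * v ^ ((k : ℝ) - 1) * (v - u) := by
      refine h1'.trans ?_
      apply mul_le_mul_of_nonneg_right _ (by linarith)
      exact mul_le_mul hg2.le h2' h2'' (by linarith)
    unfold fL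
    have h4 := mul_le_mul_of_nonneg_left h3 hl.le
    calc v ^ k + l * v ^ g - (u ^ k + l * u ^ g) = (v ^ k - u ^ k) + l * (v ^ g - u ^ g) := by ring
      _ ≤ k * v ^ ((k : ℝ) - 1) * (v - u) + l * (k * v ^ ((k : ℝ) - 1) * (v - u)) := add_le_add h1 h4
      _ = _ := by ring

/-- the derivatives -/
noncomputable def dL (k : ℕ) (g l : ℝ) (i : ℕ) (z : ℝ) : ℝ := ff k i * z ^ ((k : ℝ) - i) + l * (ff g i * z ^ (g - i))

lemma dL_zero (k : ℕ) (g l : ℝ) : dL k g l 0 = fL k g l := by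
  funext z
  unfold dL ff fL
  simp

lemma Fam_L {k : ℕ} {g l : ℝ} (hgk : g < k) (hl : 0 < l) : Fam k (dL k g l) := by
  refine ⟨?_, ?_, ?_⟩
  · intro i z hz
    exact (pow_deriv (k : ℝ) i hz).add ((pow_deriv g i hz).const_mul l)
  · intro j hj
    have hp := ff_kpos hj
    have h1 : ∀ᶠ z : ℝ in atTop, 2 * (l * |ff g j|) / ff (k : ℝ) j ≤ z ^ ((k : ℝ) - g) :=
      (tendsto_rpow_atTop (by linarith)).eventually_ge_atTop _
    filter_upwards [h1, eventually_gt_atTop 0] with z h2 hz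
    rw [div_le_iff₀ hp] at h2
    have h3 : z ^ ((k : ℝ) - j) = z ^ ((k : ℝ) - g) * z ^ (g - j) := by
      rw [← Real.rpow_add hz]
      congr 1
      ring
    have h4 : 0 < z ^ (g - j) := Real.rpow_pos_of_pos hz _
    have e1 : dL k g l j z - ff (k : ℝ) j * z ^ ((k : ℝ) - j) = l * (ff g j * z ^ (g - j)) := by
      unfold dL
      ring
    rw [e1, abs_mul, abs_mul, abs_of_pos hl, abs_of_pos h4, h3]
    nlinarith [mul_le_mul_of_nonneg_right h2 h4.le]
  · have e1 : ∀ z : ℝ, dL k g l (k + 1) z = l * (ff g (k + 1) * z ^ (g - ((k + 1 : ℕ) : ℝ))) := by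
      intro z
      unfold dL
      rw [ff_nat_zero (Nat.lt_succ_self _), zero_mul, zero_add]
    rcases le_total 0 (ff g (k + 1)) with h | h
    · left
      filter_upwards [eventually_gt_atTop 0] with z hz0
      rw [e1]
      exact mul_nonneg hl.le (mul_nonneg h (Real.rpow_pos_of_pos hz0 _).le)
    · right
      filter_upwards [eventually_gt_atTop 0] with z hz0
      rw [e1]
      exact mul_nonpos_of_nonneg_of_nonpos hl.le (mul_nonpos_of_nonpos_of_nonneg h (Real.rpow_pos_of_pos hz0 _).le)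

/-- the floor -/
lemma fr_L (k : ℕ) (g : ℝ) {l : ℝ} (hl : 0 ≤ l) (z : ℕ) : fr (fL k g l) z = z ^ k + ⌊l * (z : ℝ) ^ g⌋₊ := by
  unfold fr fL
  have h : (z : ℝ) ^ k + l * (z : ℝ) ^ g = l * (z : ℝ) ^ g + ((z ^ k : ℕ) : ℝ) := by
    push_cast
    ring
  rw [h, Nat.floor_add_natCast (mul_nonneg hl (Real.rpow_nonneg (by positivity) _))]
  ring

end Pool.Agent.J4H7.WS
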