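import Pool.Agent.J4H7.WS.R2
import Pool.Agent.J4H7.WR.G0

set_option autoImplicit false

/-!
# Waring's problem with one generic parameter, part M (helper7)

From the mean value and the exponential sums to sums of `s` terms.
-/

namespace Pool.Agent.J4H7.WS

open Real Set MeasureTheory Filter Topology
open Pool.Agent.J4H7.WE
open Pool.Agent.J4H7.WP
open Pool.Agent.J4H7.WR

lemma joinR (f : ℝ → ℝ) {m s : ℕ} (hs : 2 * m + 1 ≤ s) (x y : Fin m → ℕ) (z : ℕ) (hx : ∀ i, 1 ≤ x i)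
    (hy : ∀ i, 1 ≤ y i) (hz : 1 ≤ z) : ∃ w : Fin s → ℕ, (∀ i, 1 ≤ w i) ∧
      ∑ i, fr f (w i) = fsR f x + fsR f y + fr f z + (s - (2 * m + 1)) * fr f 1 := by
  classical
  have hcard : (Finset.univ : Finset (Option (Fin m × Bool))).card = 2 * m + 1 := by
    rw [Finset.card_univ, Fintype.card_option, Fintype.card_prod, Fintype.card_fin, Fintype.card_bool]
    ring
  obtain ⟨w, hw1, hw2⟩ := WL.pad (Finset.univ : Finset (Option (Fin m × Bool)))
    (fun o => match o with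
      | none => z
      | some (i, true) => x i
      | some (i, false) => y i) (by
        rintro (_ | ⟨i, _ | _⟩) _
        · exact hz
        · exact hy i
        · exact hx i) (fr f) (u := s) (by rw [hcard]; exact hs)
  refine ⟨w, hw1, ?_⟩
  rw [hw2, hcard]
  congr 1
  rw [Fintype.sum_option, Fintype.sum_prod_type]
  simp only [Fintype.sum_bool]
  unfold fsR
  rw [Finset.sum_add_distrib]
  ring

/-- **sums of `s` terms** -/
theorem final_of {k : ℕ} (hk : 2 ≤ k) {f : ℝ → ℝ} (hf : Fn k f) (hES : ESall k f) (q : ℝ) (m s : ℕ)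
    (hq : 0 < q) (hq1 : q < 1)
    (hMV : ∀ ε : ℝ, 0 < ε → ∀ᶠ j : ℕ in atTop,
      (TR f q ((2 : ℝ) ^ j) m m : ℝ) ≤ VV q ((2 : ℝ) ^ j) m * ((2 : ℝ) ^ j) ^ (-(k : ℝ) + ε)) (hs : 2 * m + 1 ≤ s) :
    ∃ N₀ : ℕ, ∀ N : ℕ, N₀ ≤ N → ∃ x : Fin s → ℕ, (∀ i, 1 ≤ x i) ∧ ∑ i, fr f (x i) = N := by
  obtain ⟨N1, hN1⟩ := eventually_atTop.1 (repr_all hk hf hES q m hq hq1 hMV)
  refine ⟨N1 + (s - (2 * m + 1)) * fr f 1, fun N hN => ?_⟩
  obtain ⟨x, y, z, hx, hy, hz, h3⟩ := hN1 (N - (s - (2 * m + 1)) * fr f 1) (by omega)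
  obtain ⟨w, hw, h4⟩ := joinR f hs x y z hx hy hz
  refine ⟨w, hw, ?_⟩
  rw [h4, h3]
  omega

/-- the number of variables -/
lemma exists_m {k : ℕ} {g : ℝ} {s : ℕ} (hg1 : 1 < g) (hg2 : g < k)
    (hs : 2 * (k + g - 1) * Real.log (1 + k / (g - 1)) + 3 ≤ s) :
    ∃ m : ℕ, (k + g - 1) * Real.log (1 + k / (g - 1)) ≤ m ∧ 2 * m + 1 ≤ s := by
  have hg0 : 0 < g - 1 := by linarith
  have hlog : 0 ≤ Real.log (1 + k / (g - 1)) := by
    apply Real.log_nonneg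
    have : 0 ≤ (k : ℝ) / (g - 1) := by positivity
    linarith
  have hm2 := Nat.ceil_lt_add_one (show 0 ≤ (k + g - 1) * Real.log (1 + k / (g - 1)) from mul_nonneg (by linarith) hlog)
  refine ⟨⌈(k + g - 1) * Real.log (1 + k / (g - 1))⌉₊, Nat.le_ceil _, ?_⟩
  have : ((2 * ⌈(k + g - 1) * Real.log (1 + k / (g - 1))⌉₊ + 1 : ℕ) : ℝ) < s := by
    push_cast
    linarith
  have : 2 * ⌈(k + g - 1) * Real.log (1 + k / (g - 1))⌉₊ + 1 < s := by exact_mod_cast this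
  omega

end Pool.Agent.J4H7.WS
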