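import Pool.Agent.J4H7.WS.M
import Pool.Agent.J4H7.WS.L
import Pool.Agent.J4H7.WS.J

set_option autoImplicit false

/-!
# Waring's problem with one generic parameter, part N (helper7)

The two main theorems, from the exponential sums for large `β`.
-/

namespace Pool.Agent.J4H7.WS

open Real Set MeasureTheory Filter Topology
open Pool.Agent.J4H7.WE
open Pool.Agent.J4H7.WP
open Pool.Agent.J4H7.WR

/-- the mean values for `z ^ k + l * z ^ g` -/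
lemma ae_meanL {k m : ℕ} (hk : 2 ≤ k) {g q : ℝ} (hg1 : 1 < g) (hg2 : g < k) (b1 : 0 < q) (b2 : q < 1)
    (b3 : (1 - q) * k < 1) (b4 : q ^ 2 * k < (k : ℝ) - 1) (b5 : q ^ 2 * g < (k : ℝ) - 1 - q * (k - g))
    (b6 : 1 < (1 - q) * (2 * k - 1 - q * (k - g))) (b7 : (k : ℝ) < ∑ i ∈ Finset.range m, q ^ i) :
    ∀ᵐ l : ℝ, 0 < l → ∀ ε : ℝ, 0 < ε → ∀ᶠ j : ℕ in atTop,
      (TR (fL k g l) q ((2 : ℝ) ^ j) m m : ℝ) ≤ VV q ((2 : ℝ) ^ j) m * ((2 : ℝ) ^ j) ^ (-(k : ℝ) + ε) := by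
  have key : ∀ᵐ l : ℝ, ∀ r : ℕ, l ∈ Icc (0 : ℝ) ((r : ℝ) + 1) → ∀ ε : ℝ, 0 < ε → ∀ᶠ j : ℕ in atTop,
      (TR (fL k g l) q ((2 : ℝ) ^ j) m m : ℝ) ≤ VV q ((2 : ℝ) ^ j) m * ((2 : ℝ) ^ j) ^ (-(k : ℝ) + ε) := by
    rw [ae_all_iff]
    intro r
    have hr : (0 : ℝ) ≤ (r : ℝ) + 1 := by positivity
    have hP := PF_L hk hg1 hg2 le_rfl hr
    have hkk : (1 : ℝ) ≤ k * 2 ^ k := by
      have h1 : (1 : ℝ) ≤ 2 ^ k := one_le_pow₀ (by norm_num)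
      have h2 : (1 : ℝ) ≤ k := by linarith
      nlinarith
    have hK : 1 ≤ (1 + ((r : ℝ) + 1)) * (k * 2 ^ k) := by nlinarith
    have hc : 0 < 1 / ((1 + ((r : ℝ) + 1)) * (k * 2 ^ (k - 1))) := by
      have : (0 : ℝ) < k := by linarith
      positivity
    have hL := Lev_PF (m := m) hk b1 b2 (by linarith) hc hK hP
    refine ae_mean (F := fL k g) (fun z => ?_) hk b1 b2 b3.le (by nlinarith) hr (by positivity) (by positivity) (by positivity)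
      (ev_GD hk b2 hg2 hc b4 b5 (by linarith)) hL b7.le
    unfold fL
    fun_prop
  filter_upwards [key] with l hl hl0
  obtain ⟨r, hr⟩ := exists_nat_ge l
  exact hl r ⟨hl0.le, by linarith⟩

/-- **`z ^ k + l * z ^ g`**, from the exponential sums -/
theorem mainL_of {k : ℕ} (hk : 2 ≤ k) {g : ℝ} (hg1 : 1 < g) (hg2 : g < k) (H : ∀ᵐ l : ℝ, 0 < l → ESL (fL k g l)) :
    ∀ᵐ l : ℝ, 0 < l → ∀ s : ℕ, 2 * (k + g - 1) * Real.log (1 + k / (g - 1)) + 3 ≤ s →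
      ∃ N₀ : ℕ, ∀ N : ℕ, N₀ ≤ N → ∃ x : Fin s → ℕ, (∀ i, 1 ≤ x i) ∧ ∑ i, (x i ^ k + ⌊l * (x i : ℝ) ^ g⌋₊) = N := by
  set s0 : ℕ := ⌈2 * (k + g - 1) * Real.log (1 + k / (g - 1)) + 3⌉₊ with hs0
  obtain ⟨m, hm1, hm2⟩ := exists_m (s := s0) hg1 hg2 (Nat.le_ceil _)
  obtain ⟨q, b1, b2, b3, b4, b5, b6, b7⟩ := exists_qQ hk hg1 hg2 hm1
  filter_upwards [H, ae_meanL hk hg1 hg2 b1 b2 b3 b4 b5 b6 b7] with l h1 h2 hl s hs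
  have hss : s0 ≤ s := Nat.ceil_le.2 hs
  have hES : ESall k (fL k g l) := by
    have h3 := ES_of hk (Fam_L hg2 hl) (by rw [dL_zero]; exact h1 hl)
    rwa [dL_zero] at h3
  obtain ⟨N0, hN0⟩ := final_of hk (Fn_L hk hg1 hg2 hl) hES q m s b1 b2 (h2 hl) (by omega)
  refine ⟨N0, fun N hN => ?_⟩
  obtain ⟨x, hx, hx2⟩ := hN0 N hN
  refine ⟨x, hx, ?_⟩
  rw [← hx2]
  exact Finset.sum_congr rfl fun i _ => (fr_L k g hl.le (x i)).symm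

/-- the mean values for `(z + l) ^ k` -/
lemma ae_meanJ {k m : ℕ} (hk : 3 ≤ k) {q : ℝ} (b1 : 0 < q) (b2 : q < 1)
    (b3 : (1 - q) * k < 1) (b4 : q ^ 2 * k < (k : ℝ) - 1) (b5 : q ^ 2 * ((k : ℝ) - 1) < (k : ℝ) - 1 - q * (k - ((k : ℝ) - 1)))
    (b6 : 1 < (1 - q) * (2 * k - 1 - q * (k - ((k : ℝ) - 1)))) (b7 : (k : ℝ) < ∑ i ∈ Finset.range m, q ^ i) :
    ∀ᵐ l : ℝ, l ∈ Icc (0 : ℝ) 1 → ∀ ε : ℝ, 0 < ε → ∀ᶠ j : ℕ in atTop,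
      (TR (fJ k l) q ((2 : ℝ) ^ j) m m : ℝ) ≤ VV q ((2 : ℝ) ^ j) m * ((2 : ℝ) ^ j) ^ (-(k : ℝ) + ε) := by
  have hk' : (3 : ℝ) ≤ k := by exact_mod_cast hk
  have hP := PF_J hk
  have hK : 1 ≤ (k : ℝ) * 3 ^ k := by
    have h1 : (1 : ℝ) ≤ 3 ^ k := one_le_pow₀ (by norm_num)
    nlinarith
  have hc : (0 : ℝ) < 1 / 2 ^ k := by positivity
  have hL := Lev_PF (m := m) (by omega) b1 b2 (by linarith) hc hK hP
  refine ae_mean (F := fJ k) (fun z => ?_) (by omega) b1 b2 b3.le (by nlinarith) (by norm_num) (by positivity) (by positivity)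
    (by positivity) (ev_GD (by omega) b2 (by linarith) hc b4 b5 (by linarith)) hL b7.le
  unfold fJ
  fun_prop

/-- **`(z + l) ^ k`**, from the exponential sums -/
theorem mainJ_of {k : ℕ} (hk : 3 ≤ k) (H : ∀ᵐ l : ℝ, 0 < l → l < 1 → ESL (fJ k l)) :
    ∀ᵐ l : ℝ, 0 < l → l < 1 → ∀ s : ℕ, 4 * ((k : ℝ) - 1) * Real.log (1 + k / ((k : ℝ) - 2)) + 3 ≤ s →
      ∃ N₀ : ℕ, ∀ N : ℕ, N₀ ≤ N → ∃ x : Fin s → ℕ, (∀ i, 1 ≤ x i) ∧ ∑ i, ⌊((x i : ℝ) + l) ^ k⌋₊ = N := by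
  have hk' : (3 : ℝ) ≤ k := by exact_mod_cast hk
  have hg1 : (1 : ℝ) < (k : ℝ) - 1 := by linarith
  have hg2 : (k : ℝ) - 1 < k := by linarith
  have he : 4 * ((k : ℝ) - 1) * Real.log (1 + k / ((k : ℝ) - 2)) + 3 =
      2 * (k + ((k : ℝ) - 1) - 1) * Real.log (1 + k / (((k : ℝ) - 1) - 1)) + 3 := by
    rw [show (k : ℝ) - 1 - 1 = k - 2 by ring]
    ring
  rw [he]
  set s0 : ℕ := ⌈2 * (k + ((k : ℝ) - 1) - 1) * Real.log (1 + k / (((k : ℝ) - 1) - 1)) + 3⌉₊ with hs0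
  obtain ⟨m, hm1, hm2⟩ := exists_m (s := s0) hg1 hg2 (Nat.le_ceil _)
  obtain ⟨q, b1, b2, b3, b4, b5, b6, b7⟩ := exists_qQ (by omega) hg1 hg2 hm1
  filter_upwards [H, ae_meanJ hk b1 b2 b3 b4 b5 b6 b7] with l h1 h2 hl hl1 s hs
  have hss : s0 ≤ s := Nat.ceil_le.2 hs
  have hES : ESall k (fJ k l) := by
    have h3 := ES_of (by omega) (Fam_J (k := k) hl.le) (by rw [dJ_zero]; exact h1 hl hl1)
    rwa [dJ_zero] at h3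
  obtain ⟨N0, hN0⟩ := final_of (by omega) (Fn_J (by omega) hl.le hl1.le) hES q m s b1 b2 (h2 ⟨hl.le, hl1.le⟩) (by omega)
  refine ⟨N0, fun N hN => ?_⟩
  obtain ⟨x, hx, hx2⟩ := hN0 N hN
  exact ⟨x, hx, hx2⟩

end Pool.Agent.J4H7.WS
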