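import Pool.Agent.J4H7.WS.N
import Pool.Agent.J4H7.WL.D
import Pool.Agent.J4H30.WS.Esl

set_option autoImplicit false

/-!
# Waring's problem with one generic parameter, part O (helper7)

The exponential sums for large `β`, from the polynomial case.
-/

namespace Pool.Agent.J4H7.WS

open Real Set MeasureTheory Filter Topology
open Pool.Agent.J4H7.WE
open Pool.Agent.J4H7.WP
open Pool.Agent.J4H7.WR
open Pool.Agent.J4H7.WL (DC ae_DC)
open Pool.Agent.Helper153.Vdc (ee)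

/-- the polynomial case -/
def POL : Prop := ∀ (k j : ℕ), 1 ≤ j → j < k → ∀ R : Polynomial ℝ, R.natDegree = j → ∀ c : ℝ, 0 < c → DC c R.leadingCoeff →
  ∃ η : ℝ, 0 < η ∧ η ≤ 1 ∧ ∃ σ : ℝ, 0 < σ ∧ σ ≤ 1 ∧ ∃ C : ℝ, 1 ≤ C ∧ ∃ X0 : ℝ, 2 ≤ X0 ∧ ∀ X : ℝ, X0 ≤ X → ∀ β : ℝ,
    X ^ (-(1 / 2 : ℝ)) ≤ |β| → |β| ≤ X ^ η → ∀ Y M : ℕ, 4 * X ≤ Y → (Y : ℝ) + M ≤ 64 * X + 1 →
    ‖∑ n ∈ Finset.range M, ee (β * (((Y : ℝ) + n) ^ k + R.eval ((Y : ℝ) + n)))‖ ≤ C * X ^ (1 - σ)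

/-- non-integer exponents -/
lemma ESL_L {k : ℕ} (hk : 2 ≤ k) {g : ℝ} (hg1 : 1 < g) (hgk : g < k) (hgn : ∀ n : ℕ, g ≠ n) {l : ℝ} (hl : 0 < l) :
    ESL (fL k g l) := by
  obtain ⟨σ, h1, h2, C, hC, X0, hX0, H⟩ := Pool.Agent.J4H30.WS.t_ESL k hk hg1 hgk hgn hl
  refine ⟨1, one_pos, le_rfl, σ, h1, h2, C, hC, X0, hX0, ?_⟩
  intro X hX β hb1 hb2 Y M hY hM
  rw [Real.rpow_one] at hb2
  exact H X hX β hb1 hb2 Y M hY hM

/-- integer exponents -/
lemma ESL_Ln (hPOL : POL) {k j : ℕ} (hj : 1 ≤ j) (hjk : j < k) {l c : ℝ} (hl : 0 < l) (hc : 0 < c) (hD : DC c l) :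
    ESL (fL k (j : ℝ) l) := by
  obtain ⟨κ, h0, h0', σ, h1, h2, C, hC, X0, hX0, H⟩ := hPOL k j hj hjk (Polynomial.C l * Polynomial.X ^ j)
    (Polynomial.natDegree_C_mul_X_pow j l hl.ne') c hc (by rw [Polynomial.leadingCoeff_C_mul_X_pow]; exact hD)
  refine ⟨κ, h0, h0', σ, h1, h2, C, hC, X0, hX0, ?_⟩
  intro X hX β hb1 hb2 Y M hY hM
  have := H X hX β hb1 hb2 Y M hY hM
  simp only [Polynomial.eval_mul, Polynomial.eval_C, Polynomial.eval_pow, Polynomial.eval_X] at this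
  unfold SG fL
  simp only [Real.rpow_natCast]
  exact this

lemma DC_mul {c l : ℝ} (hD : DC c l) {k : ℕ} (hk : 1 ≤ k) : DC (c / (k : ℝ) ^ 2) (k * l) := by
  intro n a hn
  have h1 := hD (n * k) a (Nat.mul_pos hn hk)
  have e1 : c / (k : ℝ) ^ 2 / (n : ℝ) ^ 2 = c / ((n * k : ℕ) : ℝ) ^ 2 := by
    push_cast
    rw [div_div]
    congr 1
    ring
  rw [e1]
  refine h1.trans (le_of_eq ?_)
  congr 1
  push_cast
  ring

/-- the shifted power is a polynomial with leading lower coefficient `k * l` -/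
lemma shift_poly {k : ℕ} (hk : 2 ≤ k) {l : ℝ} (hl : 0 < l) :
    ((Polynomial.X + Polynomial.C l) ^ k - Polynomial.X ^ k : Polynomial ℝ).natDegree = k - 1 ∧
    ((Polynomial.X + Polynomial.C l) ^ k - Polynomial.X ^ k : Polynomial ℝ).leadingCoeff = k * l := by
  have hk0 : (0 : ℝ) < k := by
    have : 0 < k := by omega
    exact_mod_cast this
  have hc : ∀ i : ℕ, ((Polynomial.X + Polynomial.C l) ^ k - Polynomial.X ^ k : Polynomial ℝ).coeff i =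
      l ^ (k - i) * (k.choose i : ℝ) - if i = k then 1 else 0 := by
    intro i
    rw [Polynomial.coeff_sub, Polynomial.coeff_X_add_C_pow, Polynomial.coeff_X_pow]
  have h1 : ((Polynomial.X + Polynomial.C l) ^ k - Polynomial.X ^ k : Polynomial ℝ).coeff (k - 1) = k * l := by
    rw [hc, if_neg (by omega), show k - (k - 1) = 1 by omega, pow_one, sub_zero]
    have : k.choose (k - 1) = k := by
      rw [Nat.choose_symm_of_eq_add (show k = (k - 1) + 1 by omega), Nat.choose_one_right]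
    rw [this]
    ring
  have h2 : ((Polynomial.X + Polynomial.C l) ^ k - Polynomial.X ^ k : Polynomial ℝ).natDegree = k - 1 := by
    apply Polynomial.natDegree_eq_of_le_of_coeff_ne_zero
    · rw [Polynomial.natDegree_le_iff_coeff_eq_zero]
      intro i hi
      rw [hc]
      rcases Nat.lt_or_ge k i with h | h
      · rw [Nat.choose_eq_zero_of_lt h, if_neg (by omega)]
        simp
      · have : i = k := by omega
        subst this
        simp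
    · rw [h1]
      positivity
  refine ⟨h2, ?_⟩
  rw [Polynomial.leadingCoeff, h2, h1]

/-- shifted powers -/
lemma ESL_J (hPOL : POL) {k : ℕ} (hk : 3 ≤ k) {l c : ℝ} (hl : 0 < l) (hc : 0 < c) (hD : DC c l) : ESL (fJ k l) := by
  obtain ⟨p1, p2⟩ := shift_poly (k := k) (by omega) hl
  have hk0 : (0 : ℝ) < k := by
    have : 0 < k := by omega
    exact_mod_cast this
  obtain ⟨κ, h0, h0', σ, h1, h2, C, hC, X0, hX0, H⟩ := hPOL k (k - 1) (by omega) (by omega)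
    ((Polynomial.X + Polynomial.C l) ^ k - Polynomial.X ^ k) p1 (c / (k : ℝ) ^ 2) (by positivity)
    (by rw [p2]; exact DC_mul hD (by omega))
  refine ⟨κ, h0, h0', σ, h1, h2, C, hC, X0, hX0, ?_⟩
  intro X hX β hb1 hb2 Y M hY hM
  have := H X hX β hb1 hb2 Y M hY hM
  simp only [Polynomial.eval_sub, Polynomial.eval_add, Polynomial.eval_C, Polynomial.eval_pow, Polynomial.eval_X,
    add_sub_cancel] at this
  unfold SG fJ
  exact this

/-- **`n ^ k + ⌊l * n ^ g⌋`** -/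
theorem mainL (hPOL : POL) {g : ℝ} (hg1 : 1 < g) :
    ∀ᵐ l : ℝ, 0 < l → ∀ k s : ℕ, g < k → 2 * (k + g - 1) * Real.log (1 + k / (g - 1)) + 3 ≤ s →
      ∃ N₀ : ℕ, ∀ N : ℕ, N₀ ≤ N → ∃ x : Fin s → ℕ, (∀ i, 1 ≤ x i) ∧ ∑ i, (x i ^ k + ⌊l * (x i : ℝ) ^ g⌋₊) = N := by
  have h : ∀ᵐ l : ℝ, ∀ k : ℕ, g < k → 0 < l → ∀ s : ℕ, 2 * (k + g - 1) * Real.log (1 + k / (g - 1)) + 3 ≤ s →
      ∃ N₀ : ℕ, ∀ N : ℕ, N₀ ≤ N → ∃ x : Fin s → ℕ, (∀ i, 1 ≤ x i) ∧ ∑ i, (x i ^ k + ⌊l * (x i : ℝ) ^ g⌋₊) = N := by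
    rw [ae_all_iff]
    intro k
    by_cases hgk : g < k
    · have hk : 2 ≤ k := by
        have : (1 : ℝ) < k := hg1.trans hgk
        have : 1 < k := by exact_mod_cast this
        omega
      have hE : ∀ᵐ l : ℝ, 0 < l → ESL (fL k g l) := by
        by_cases hgn : ∀ n : ℕ, g ≠ n
        · exact Eventually.of_forall fun l hl => ESL_L hk hg1 hgk hgn hl
        · push Not at hgn
          obtain ⟨j, rfl⟩ := hgn
          filter_upwards [ae_DC] with l hD hl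
          obtain ⟨c, hc, hD⟩ := hD
          exact ESL_Ln hPOL (by
            have : 1 < j := by exact_mod_cast hg1
            omega) (by exact_mod_cast hgk) hl hc hD
      filter_upwards [mainL_of hk hg1 hgk hE] with l hl _
      exact hl
    · exact Eventually.of_forall fun _ h' => absurd h' hgk
  filter_upwards [h] with l hl hl0 k s hgk hs
  exact hl k hgk hl0 s hs

/-- **`⌊(n + l) ^ k⌋`** -/
theorem mainJ (hPOL : POL) :
    ∀ᵐ l : ℝ, 0 < l → l < 1 → ∀ k s : ℕ, 3 ≤ k → 4 * ((k : ℝ) - 1) * Real.log (1 + k / ((k : ℝ) - 2)) + 3 ≤ s →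
      ∃ N₀ : ℕ, ∀ N : ℕ, N₀ ≤ N → ∃ x : Fin s → ℕ, (∀ i, 1 ≤ x i) ∧ ∑ i, ⌊((x i : ℝ) + l) ^ k⌋₊ = N := by
  have h : ∀ᵐ l : ℝ, ∀ k : ℕ, 3 ≤ k → 0 < l → l < 1 → ∀ s : ℕ, 4 * ((k : ℝ) - 1) * Real.log (1 + k / ((k : ℝ) - 2)) + 3 ≤ s →
      ∃ N₀ : ℕ, ∀ N : ℕ, N₀ ≤ N → ∃ x : Fin s → ℕ, (∀ i, 1 ≤ x i) ∧ ∑ i, ⌊((x i : ℝ) + l) ^ k⌋₊ = N := by
    rw [ae_all_iff]
    intro k
    by_cases hk : 3 ≤ k
    · have hE : ∀ᵐ l : ℝ, 0 < l → l < 1 → ESL (fJ k l) := by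
        filter_upwards [ae_DC] with l hD hl _
        obtain ⟨c, hc, hD⟩ := hD
        exact ESL_J hPOL hk hl hc hD
      filter_upwards [mainJ_of hk hE] with l hl _
      exact hl
    · exact Eventually.of_forall fun _ h' => absurd h' hk
  filter_upwards [h] with l hl hl0 hl1 k s hk hs
  exact hl k hk hl0 hl1 s hs

end Pool.Agent.J4H7.WS
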