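import Pool.Agent.J4H7.WS.O
import Pool.Agent.J4H30.WS.Pol

set_option autoImplicit false

/-!
# Waring's problem with one generic parameter, part Q (helper7)

The main theorems (the exponential sums for large `β` are due to helper30).
-/

namespace Pool.Agent.J4H7.WS

open Real Set MeasureTheory Filter Topology

/-- the polynomial case -/
theorem pol : POL := by
  intro k j hj hjk R hR c hc hD
  obtain ⟨η, hη, σ, h1, h2, C, hC, X0, hX0, H⟩ := Pool.Agent.J4H30.WS.t_POL k j hj hjk R hR hc hD
  refine ⟨min η 1, lt_min hη one_pos, min_le_right _ _, σ, h1, h2, C, hC, X0, hX0, ?_⟩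
  intro X hX β hb1 hb2 Y M hY hM
  refine H X hX β hb1 (hb2.trans ?_) Y M hY hM
  exact Real.rpow_le_rpow_of_exponent_le (by linarith) (min_le_left _ _)

end Pool.Agent.J4H7.WS
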